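import Pool.Agent.Lib.MP_b07157_agQ.HomDvd
import Pool.Agent.Lib.MP_b07157_agN1.Bin

/-!
# Squarefree polynomials in two variables
-/

noncomputable section

namespace MPb07157.F5

open MvPolynomial

/-- A binary form of positive degree has a nontrivial zero. -/
theorem exists_zero_bin {x : MvPolynomial (Fin 2) ℂ} {e : ℕ} (hx : x.IsHomogeneous e)
    (he : 0 < e) : ∃ a : Fin 2 → ℂ, a ≠ 0 ∧ eval a x = 0 := by
  by_cases hd : (MPb07157.MN.dh x).degree = 0 ∨ (MPb07157.MN.dh x) = 0
  · have hC : MPb07157.MN.dh x = Polynomial.C ((MPb07157.MN.dh x).coeff 0) := by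
      rcases hd with hd | hd
      · exact Polynomial.eq_C_of_degree_le_zero hd.le
      · rw [hd]
        simp
    have hX : (C ((MPb07157.MN.dh x).coeff 0) * X 0 ^ e :
        MvPolynomial (Fin 2) ℂ).IsHomogeneous e := by
      have h1 := (isHomogeneous_X ℂ (0 : Fin 2)).pow e
      rw [one_mul] at h1
      have h2 := (isHomogeneous_C (Fin 2) ((MPb07157.MN.dh x).coeff 0)).mul h1
      rwa [zero_add] at h2
    have hdh : MPb07157.MN.dh (C ((MPb07157.MN.dh x).coeff 0) * X 0 ^ e) =
        Polynomial.C ((MPb07157.MN.dh x).coeff 0) := by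
      unfold MPb07157.MN.dh
      rw [map_mul, map_pow, aeval_X, aeval_C]
      simp only [Matrix.cons_val_zero, one_pow, mul_one]
      rfl
    have hxe : x = C ((MPb07157.MN.dh x).coeff 0) * X 0 ^ e :=
      MPb07157.MN.eq_of_dh hx hX (by rw [hdh]; exact hC)
    refine ⟨![0, 1], ?_, ?_⟩
    · intro h0
      have h1 := congrFun h0 1
      simp at h1
    · rw [hxe, map_mul, map_pow, eval_X]
      simp [he.ne']
  · push Not at hd
    obtain ⟨t, ht⟩ := IsAlgClosed.exists_root (MPb07157.MN.dh x) hd.1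
    refine ⟨![1, t], ?_, ?_⟩
    · intro h0
      have h1 := congrFun h0 0
      simp at h1
    · rw [← MPb07157.MN.eval_dh]
      exact ht

/-- A binary form without double zeros is squarefree. -/
theorem squarefree_bin {A : MvPolynomial (Fin 2) ℂ} {k : ℕ} (hA : A.IsHomogeneous k)
    (hA0 : A ≠ 0)
    (h : ∀ a : Fin 2 → ℂ, a ≠ 0 → eval a A = 0 → ∃ i, eval a (pderiv i A) ≠ 0) :
    Squarefree A := by
  intro x hx
  have hx0 : x ≠ 0 := by
    rintro rfl
    rw [zero_mul, zero_dvd_iff] at hx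
    exact hA0 hx
  obtain ⟨e, he⟩ := isHomogeneous_of_dvd hA hA0 (dvd_trans (dvd_mul_right x x) hx)
  rcases Nat.eq_zero_or_pos e with he0 | he0
  · subst he0
    have h1 : x = C (coeff 0 x) := totalDegree_eq_zero_iff_eq_C.1 (he.totalDegree hx0)
    have h2 : coeff 0 x ≠ 0 := by
      intro h3
      rw [h3, C_0] at h1
      exact hx0 h1
    rw [h1]
    exact (isUnit_iff_ne_zero.2 h2).map C
  · exfalso
    obtain ⟨a, ha, hax⟩ := exists_zero_bin he he0
    obtain ⟨y, rfl⟩ := hx
    obtain ⟨i, hi⟩ := h a ha (by rw [map_mul, map_mul, hax, zero_mul, zero_mul])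
    apply hi
    rw [(pderiv i).leibniz, (pderiv i).leibniz]
    simp only [smul_eq_mul, map_add, map_mul, hax, zero_mul, mul_zero, add_zero]

end MPb07157.F5
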