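import Pool.Agent.Lib.MP_b07157_agO3.SDefs
import Pool.Agent.Lib.MP_b07157_agC4.Chg

/-!
# Dehomogenization at a point
-/

noncomputable section

namespace MPb07157.F5

open MvPolynomial

/-- The dehomogenization. -/
def deh : MvPolynomial (Fin 3) ℂ →ₐ[ℂ] MvPolynomial (Fin 2) ℂ := aeval ![1, X 0, X 1]

theorem tay_eq_deh (p u w : Fin 3 → ℂ) (F : MvPolynomial (Fin 3) ℂ) :
    Tay p u w 0 F = deh (C4.aM (C4.colM p u w) F) := by
  have h : (aeval (fun i => C (p i) + C (u i) * X 0 +
      C (w i) * (X 1 + Polynomial.aeval (X 0) (0 : Polynomial ℂ))) :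
      MvPolynomial (Fin 3) ℂ →ₐ[ℂ] MvPolynomial (Fin 2) ℂ) =
      deh.comp (C4.aM (C4.colM p u w)) := by
    refine MvPolynomial.algHom_ext fun i => ?_
    rw [AlgHom.comp_apply]
    unfold deh C4.aM C4.colM
    rw [aeval_X, aeval_X, map_sum, Fin.sum_univ_three]
    simp only [map_mul, aeval_C, aeval_X, Matrix.of_apply, Matrix.cons_val_zero,
      Matrix.cons_val_one, Matrix.cons_val_two, Matrix.tail_cons, Matrix.head_cons,
      MvPolynomial.algebraMap_eq, map_zero, add_zero, mul_one]
  exact congrArg (fun φ : MvPolynomial (Fin 3) ℂ →ₐ[ℂ] MvPolynomial (Fin 2) ℂ => φ F) h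

theorem deh_monomial (v : Fin 3 →₀ ℕ) (c : ℂ) : deh (monomial v c) = monomial v.tail c := by
  unfold deh
  rw [aeval_monomial, Finsupp.prod_fintype _ _ (fun i => pow_zero _), Fin.prod_univ_three,
    monomial_eq (s := v.tail), Finsupp.prod_fintype _ _ (fun i => pow_zero _),
    Fin.prod_univ_two]
  simp only [Matrix.cons_val_zero, Matrix.cons_val_one, Matrix.cons_val_two, Matrix.tail_cons,
    Matrix.head_cons, one_pow, one_mul, Finsupp.tail_apply, MvPolynomial.algebraMap_eq]
  rfl

theorem coeff_deh_eq (F : MvPolynomial (Fin 3) ℂ) (m : Fin 2 →₀ ℕ) :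
    coeff m (deh F) = ∑ v ∈ F.support, if v.tail = m then coeff v F else 0 := by
  classical
  conv_lhs => rw [F.as_sum, map_sum, coeff_sum]
  refine Finset.sum_congr rfl fun v _ => ?_
  rw [deh_monomial, coeff_monomial]

theorem sum_three {v : Fin 3 →₀ ℕ} {F : MvPolynomial (Fin 3) ℂ} {n : ℕ} (hF : F.IsHomogeneous n)
    (hv : coeff v F ≠ 0) : v 0 + v.tail 0 + v.tail 1 = n := by
  have h1 := hF hv
  rw [← h1, Finsupp.weight_apply, Finsupp.sum_fintype _ _ (fun i => by simp), Fin.sum_univ_three]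
  simp only [Finsupp.tail_apply, smul_eq_mul, Pi.one_apply, mul_one]
  rfl

theorem coeff_tail {F : MvPolynomial (Fin 3) ℂ} {n : ℕ} (hF : F.IsHomogeneous n)
    {v : Fin 3 →₀ ℕ} (hv : coeff v F ≠ 0) : coeff v.tail (deh F) = coeff v F := by
  classical
  rw [coeff_deh_eq, Finset.sum_eq_single v, if_pos rfl]
  · intro v' hv' hne
    rw [if_neg]
    intro h
    apply hne
    have h1 := sum_three hF (mem_support_iff.1 hv')
    have h2 := sum_three hF hv
    rw [h] at h1
    have h3 : v' 0 = v 0 := by omega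
    rw [← Finsupp.cons_tail v', ← Finsupp.cons_tail v, h, h3]
  · intro h
    exact absurd (mem_support_iff.2 hv) h

theorem exists_of_coeff {F : MvPolynomial (Fin 3) ℂ} {m : Fin 2 →₀ ℕ}
    (hm : coeff m (deh F) ≠ 0) : ∃ v : Fin 3 →₀ ℕ, v.tail = m ∧ coeff v F ≠ 0 := by
  classical
  rw [coeff_deh_eq] at hm
  obtain ⟨v, hv, h⟩ := Finset.exists_ne_zero_of_sum_ne_zero hm
  by_cases h1 : v.tail = m
  · exact ⟨v, h1, mem_support_iff.1 hv⟩
  · rw [if_neg h1] at h
    exact absurd rfl h

theorem deh_ne_zero {F : MvPolynomial (Fin 3) ℂ} {n : ℕ} (hF : F.IsHomogeneous n) (h0 : F ≠ 0) :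
    deh F ≠ 0 := by
  obtain ⟨v, hv⟩ := MvPolynomial.ne_zero_iff.1 h0
  intro h
  have h1 := coeff_tail hF hv
  rw [h, coeff_zero] at h1
  exact hv h1.symm

theorem X_sq_dvd_iff {σ : Type*} (i : σ) (p : MvPolynomial σ ℂ) :
    X i ^ 2 ∣ p ↔ ∀ m : σ →₀ ℕ, m i < 2 → coeff m p = 0 := by
  classical
  have h0 : (X i ^ 2 : MvPolynomial σ ℂ) = monomial (Finsupp.single i 2) 1 :=
    X_pow_eq_monomial
  rw [h0, monomial_one_dvd_iff_modMonomial_eq_zero]
  constructor
  · intro h m hm
    rw [← coeff_modMonomial_of_not_le p (s := Finsupp.single i 2), h, coeff_zero]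
    rw [Finsupp.single_le_iff]
    omega
  · intro h
    ext m
    rw [coeff_zero]
    by_cases hm : Finsupp.single i 2 ≤ m
    · exact coeff_modMonomial_of_le p hm
    · rw [coeff_modMonomial_of_not_le p hm]
      rw [Finsupp.single_le_iff] at hm
      exact h m (by omega)

theorem not_sq_dvd {F : MvPolynomial (Fin 3) ℂ} {n : ℕ} (hF : F.IsHomogeneous n)
    (hs : Squarefree F) : ¬ X 0 ^ 2 ∣ deh F := by
  intro h
  rw [X_sq_dvd_iff] at h
  have h1 : X 1 ^ 2 ∣ F := by
    rw [X_sq_dvd_iff]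
    intro v hv
    by_contra hc
    have h2 := coeff_tail hF hc
    rw [h v.tail (by rw [Finsupp.tail_apply]; exact hv)] at h2
    exact hc h2.symm
  have h2 := hs (X 1) (by rw [← pow_two]; exact h1)
  have h3 := h2.map (eval (0 : Fin 3 → ℂ))
  rw [eval_X] at h3
  exact not_isUnit_zero h3

theorem deh_rename (A : MvPolynomial (Fin 2) ℂ) : deh (rename Fin.succ A) = A := by
  have h : deh.comp (rename Fin.succ) = AlgHom.id ℂ (MvPolynomial (Fin 2) ℂ) := by
    refine MvPolynomial.algHom_ext fun i => ?_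
    rw [AlgHom.comp_apply, rename_X, AlgHom.id_apply]
    unfold deh
    rw [aeval_X]
    fin_cases i <;> rfl
  exact congrArg (fun φ : MvPolynomial (Fin 2) ℂ →ₐ[ℂ] MvPolynomial (Fin 2) ℂ => φ A) h

theorem rename_deh {F : MvPolynomial (Fin 3) ℂ} (h : ∀ v, coeff v F ≠ 0 → v 0 = 0) :
    rename Fin.succ (deh F) = F := by
  classical
  conv_rhs => rw [F.as_sum]
  conv_lhs => rw [F.as_sum]
  rw [map_sum, map_sum]
  refine Finset.sum_congr rfl fun v hv => ?_
  rw [deh_monomial, rename_monomial]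
  refine congrArg (fun s : Fin 3 →₀ ℕ => monomial s (coeff v F)) ?_
  have h0 := h v (mem_support_iff.1 hv)
  refine Finsupp.ext fun i => ?_
  refine Fin.cases ?_ (fun j => ?_) i
  · have h1 : (Finsupp.mapDomain Fin.succ v.tail : Fin 3 →₀ ℕ) 0 = 0 := by
      apply Finsupp.mapDomain_of_notMem_range
      rintro ⟨j, hj⟩
      exact Fin.succ_ne_zero j hj
    rw [h0, h1]
  · rw [Finsupp.mapDomain_apply (Fin.succ_injective 2), Finsupp.tail_apply]

/-- The dehomogenization of a squarefree form which is itself a form of the same degree. -/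
theorem squarefree_deh {F : MvPolynomial (Fin 3) ℂ} {n : ℕ} (hF : F.IsHomogeneous n)
    (hs : Squarefree F) (h : ∀ m : Fin 2 →₀ ℕ, coeff m (deh F) ≠ 0 → m 0 + m 1 = n) :
    Squarefree (deh F) := by
  have h1 : rename Fin.succ (deh F) = F := by
    refine rename_deh fun v hv => ?_
    have h2 := h v.tail (by rwa [coeff_tail hF hv])
    have h3 := sum_three hF hv
    omega
  intro x hx
  have h2 : rename Fin.succ x * rename Fin.succ x ∣ F := by
    rw [← h1, ← map_mul]
    exact map_dvd _ hx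
  have h3 := (hs _ h2).map deh
  rwa [deh_rename] at h3

/-- The linear substitution. -/
def lin (u w : Fin 3 → ℂ) : MvPolynomial (Fin 3) ℂ →ₐ[ℂ] MvPolynomial (Fin 2) ℂ :=
  aeval fun i => C (u i) * X 0 + C (w i) * X 1

theorem tay_eq_lin (p u w : Fin 3 → ℂ) (F : MvPolynomial (Fin 3) ℂ) :
    Tay p u w 0 F = lin u w (translate p F) := by
  have h : (aeval (fun i => C (p i) + C (u i) * X 0 +
      C (w i) * (X 1 + Polynomial.aeval (X 0) (0 : Polynomial ℂ))) :
      MvPolynomial (Fin 3) ℂ →ₐ[ℂ] MvPolynomial (Fin 2) ℂ) =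
      (lin u w).comp (aeval (fun i => X i + C (p i))) := by
    refine MvPolynomial.algHom_ext fun i => ?_
    rw [AlgHom.comp_apply]
    unfold lin
    rw [aeval_X, aeval_X, map_add, aeval_X, aeval_C, map_zero, add_zero,
      MvPolynomial.algebraMap_eq]
    ring
  exact congrArg (fun φ : MvPolynomial (Fin 3) ℂ →ₐ[ℂ] MvPolynomial (Fin 2) ℂ => φ F) h

theorem lin_hom {u w : Fin 3 → ℂ} {Q : MvPolynomial (Fin 3) ℂ} {k : ℕ} (hQ : Q.IsHomogeneous k) :
    (lin u w Q).IsHomogeneous k := by
  have h : (lin u w Q).IsHomogeneous (1 * k) := hQ.aeval _ fun i =>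
    ((isHomogeneous_X ℂ _).C_mul _).add ((isHomogeneous_X ℂ _).C_mul _)
  rwa [one_mul] at h

theorem two_sum {m : Fin 2 →₀ ℕ} {A : MvPolynomial (Fin 2) ℂ} {k : ℕ} (hA : A.IsHomogeneous k)
    (hm : coeff m A ≠ 0) : m 0 + m 1 = k := by
  have h1 := hA hm
  rw [← h1, Finsupp.weight_apply, Finsupp.sum_fintype _ _ (fun i => by simp), Fin.sum_univ_two]
  simp only [smul_eq_mul, Pi.one_apply, mul_one]

theorem coeff_lin (u w : Fin 3 → ℂ) (Q : MvPolynomial (Fin 3) ℂ) (m : Fin 2 →₀ ℕ) :
    coeff m (lin u w Q) = coeff m (lin u w (homogeneousComponent (m 0 + m 1) Q)) := by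
  classical
  conv_lhs => rw [← sum_homogeneousComponent Q, map_sum, coeff_sum]
  by_cases h : m 0 + m 1 ∈ Finset.range (Q.totalDegree + 1)
  · rw [Finset.sum_eq_single_of_mem _ h]
    intro k _ hk
    by_contra hc
    exact hk (two_sum (lin_hom (homogeneousComponent_isHomogeneous k Q)) hc).symm
  · rw [homogeneousComponent_eq_zero _ _ (by
      rw [Finset.mem_range] at h
      omega), map_zero, coeff_zero]
    refine Finset.sum_eq_zero fun k hk => ?_
    by_contra hc
    have h1 := two_sum (lin_hom (homogeneousComponent_isHomogeneous k Q)) hc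
    rw [h1] at h
    exact h hk

theorem eval_lin (u w : Fin 3 → ℂ) (Q : MvPolynomial (Fin 3) ℂ) (a : Fin 2 → ℂ) :
    eval a (lin u w Q) = eval (a 0 • u + a 1 • w) Q := by
  have h : (eval a).comp (lin u w : MvPolynomial (Fin 3) ℂ →+* MvPolynomial (Fin 2) ℂ) =
      eval (a 0 • u + a 1 • w) := by
    apply MvPolynomial.ringHom_ext
    · intro c
      simp [lin]
    · intro i
      simp only [lin, RingHom.comp_apply, RingHom.coe_coe, aeval_X, map_add, map_mul, eval_C,
        eval_X, Pi.add_apply, Pi.smul_apply, smul_eq_mul]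
      ring
  exact congrArg (fun φ => φ Q) h

theorem pderiv_lin (u w : Fin 3 → ℂ) (Q : MvPolynomial (Fin 3) ℂ) (i : Fin 2) :
    pderiv i (lin u w Q) =
      ∑ k, C ((![u, w] : Fin 2 → Fin 3 → ℂ) i k) * lin u w (pderiv k Q) := by
  classical
  induction Q using MvPolynomial.induction_on with
  | C c =>
    have h1 : lin u w (C c) = C c := by
      unfold lin
      rw [aeval_C]
      rfl
    rw [h1, pderiv_C]
    symm
    refine Finset.sum_eq_zero fun k _ => ?_
    rw [pderiv_C, map_zero, mul_zero]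
  | add p q hp hq =>
    rw [map_add, map_add, hp, hq, ← Finset.sum_add_distrib]
    refine Finset.sum_congr rfl fun k _ => ?_
    rw [map_add, map_add, mul_add]
  | mul_X p j hp =>
    have h1 : pderiv i (lin u w (X j)) = C ((![u, w] : Fin 2 → Fin 3 → ℂ) i j) := by
      unfold lin
      rw [aeval_X]
      fin_cases i
      · simp [pderiv_X]
      · simp [pderiv_X]
    rw [map_mul, Derivation.leibniz, h1, hp]
    have h2 : ∀ k, lin u w (pderiv k (p * X j)) = lin u w (pderiv k p) * lin u w (X j) +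
        if k = j then lin u w p else 0 := by
      intro k
      rw [Derivation.leibniz, pderiv_X, smul_eq_mul, smul_eq_mul, map_add, map_mul, map_mul]
      by_cases hk : k = j
      · subst hk
        rw [Pi.single_eq_same, if_pos rfl, map_one]
        ring
      · rw [Pi.single_eq_of_ne (Ne.symm hk), if_neg hk, map_zero]
        ring
    simp only [h2, mul_add, Finset.sum_add_distrib, mul_ite, mul_zero]
    rw [Finset.sum_ite_eq' Finset.univ j, if_pos (Finset.mem_univ _), smul_eq_mul, smul_eq_mul,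
      Finset.mul_sum]
    have h3 : ∀ k, C ((![u, w] : Fin 2 → Fin 3 → ℂ) i k) *
        (lin u w (pderiv k p) * lin u w (X j)) =
        lin u w (X j) * (C ((![u, w] : Fin 2 → Fin 3 → ℂ) i k) * lin u w (pderiv k p)) :=
      fun k => by ring
    simp only [h3]
    ring

theorem eval_zero_one {A : MvPolynomial (Fin 2) ℂ} {k : ℕ} (hA : A.IsHomogeneous k) :
    eval ![0, 1] A = coeff (Finsupp.single 1 k) A := by
  classical
  rw [eval_eq', Finset.sum_eq_single (Finsupp.single 1 k)]
  · rw [Fin.prod_univ_two]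
    simp
  · intro m hm hne
    have h1 := two_sum hA (mem_support_iff.1 hm)
    have h2 : m 0 ≠ 0 := by
      intro h0
      apply hne
      refine Finsupp.ext fun i => ?_
      fin_cases i
      · simpa using h0
      · simp only [Fin.mk_one, Finsupp.single_eq_same]
        rw [h0] at h1
        simpa using h1
    rw [Fin.prod_univ_two]
    simp [h2]
  · intro h
    rw [notMem_support_iff.1 h, zero_mul]

end MPb07157.F5
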