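import Pool.Agent.Lib.MP_b07157_agF5.Wt2
import Pool.Agent.Lib.MP_b07157_agF5.Bin
import Pool.Agent.Lib.MP_b07157_agF5.Deh
import Pool.Agent.Lib.MP_b07157_agD5.B0
import Pool.Agent.Lib.MP_b07157_agC4.Main
import Pool.Agent.Lib.MP_b07157_agB.Lin

/-!
# Triple points of reduced curves of degree at most four, times a unit
-/

noncomputable section

namespace MPb07157.F5

open MvPolynomial

theorem degree_eq (v : Fin 3 →₀ ℕ) : Finsupp.degree v = ∑ i, v i := by
  rw [Finsupp.degree_apply]
  exact Finset.sum_subset (Finset.subset_univ _) fun i _ hi => Finsupp.notMem_support_iff.1 hi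

theorem hc_eq_zero {P : Fin 3 → ℂ} {R : MvPolynomial (Fin 3) ℂ} {n : ℕ}
    (hn : R.IsHomogeneous n) (hn4 : n ≤ 4)
    (h3 : ∀ v : Fin 3 →₀ ℕ, ∑ i, v i < 3 → coeff v (translate P R) = 0) {k : ℕ}
    (hk : k < 3 ∨ 4 < k) : homogeneousComponent k (translate P R) = 0 := by
  ext v
  rw [coeff_homogeneousComponent, coeff_zero]
  split_ifs with h
  · rw [degree_eq] at h
    by_contra hc
    rcases hk with hk | hk
    · exact hc (h3 v (by omega))
    · have := D5.sum_le_of_coeff_translate hn P hc
      omega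
  · rfl

theorem coeff_tay {P u w : Fin 3 → ℂ} {R : MvPolynomial (Fin 3) ℂ} {n : ℕ}
    (hn : R.IsHomogeneous n) (hn4 : n ≤ 4)
    (h3 : ∀ v : Fin 3 →₀ ℕ, ∑ i, v i < 3 → coeff v (translate P R) = 0) {m : Fin 2 →₀ ℕ}
    (hm : coeff m (Tay P u w 0 R) ≠ 0) : 3 ≤ m 0 + m 1 ∧ m 0 + m 1 ≤ 4 := by
  rw [tay_eq_lin, coeff_lin] at hm
  by_contra hcon
  rw [hc_eq_zero hn hn4 h3 (by omega), map_zero, coeff_zero] at hm
  exact hm rfl

theorem mul_sqh {G R : MvPolynomial (Fin 3) ℂ} {P u w : Fin 3 → ℂ}
    (hG : eval P G ≠ 0) (hi : LinearIndependent ℂ ![P, u, w]) {a b N : ℕ} (ha : 0 < a) (hb : 0 < b)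
    (hN : a + b ≤ N) (h1 : WGe a b N (Tay P u w 0 R)) (h2 : Squarefree (WPart a b N (Tay P u w 0 R))) :
    (⟨P, u, w, 0, a, b, N⟩ : Loc).Sqh (G * R) := by
  have h3 : Tay P u w 0 (G * R) = Tay P u w 0 G * Tay P u w 0 R := map_mul _ _ _
  have h4 : coeff 0 (Tay P u w 0 G) = eval P G := by
    rw [tay_eq_lin]
    have h5 := eval_lin u w (translate P G) 0
    rw [← constantCoeff_eq]
    have h6 : constantCoeff (lin u w (translate P G)) = eval 0 (lin u w (translate P G)) := by
      rw [MvPolynomial.constantCoeff_eq, MvPolynomial.eval_zero]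
      rfl
    rw [h6, h5, Pi.zero_apply, Pi.zero_apply, zero_smul, zero_smul, add_zero]
    rw [D5.eval_translate', zero_add]
  refine ⟨hi, ha, hb, hN, Polynomial.eval_zero, ?_, ?_⟩
  · show WGe a b N (Tay P u w 0 (G * R))
    rw [h3]
    exact wge_mul _ h1
  · show Squarefree (WPart a b N (Tay P u w 0 (G * R)))
    rw [h3, wpart_mul ha hb _ h1, h4]
    have h5 : Associated (WPart a b N (Tay P u w 0 R)) (C (eval P G) *
        WPart a b N (Tay P u w 0 R)) :=
      associated_unit_mul_right _ _ ((isUnit_iff_ne_zero.2 hG).map C)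
    exact (Associated.squarefree_iff h5).1 h2

theorem wge_one_one {H : MvPolynomial (Fin 2) ℂ} {N : ℕ}
    (h : ∀ m, coeff m H ≠ 0 → N ≤ m 0 + m 1) : WGe 1 1 N H := by
  intro m hm
  have := h m hm
  omega

theorem coeff_wpart' (a b N : ℕ) (H : MvPolynomial (Fin 2) ℂ) (m : Fin 2 →₀ ℕ) :
    coeff m (WPart a b N H) = if a * m 0 + b * m 1 = N then coeff m H else 0 := by
  classical
  unfold WPart
  rw [coeff_sum]
  simp only [coeff_monomial]
  rw [Finset.sum_ite_eq' (Finset.filter _ _) m (fun x => coeff x H)]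
  simp only [Finset.mem_filter, mem_support_iff]
  split_ifs with h1 h2 h2
  · rfl
  · exact absurd h1.2 h2
  · by_contra hc
    exact h1 ⟨fun h => hc h.symm, h2⟩
  · rfl

/-- Independent directions. -/
theorem exists_dirs {P : Fin 3 → ℂ} (hP : P ≠ 0) :
    ∃ u w : Fin 3 → ℂ, LinearIndependent ℂ ![P, u, w] := by
  have h1 : LinearIndependent ℂ ![P] := linearIndependent_unique_iff.2 hP
  obtain ⟨u, hu⟩ := exists_linearIndependent_cons_of_lt_finrank h1 (by
    rw [Module.finrank_fintype_fun_eq_card, Fintype.card_fin]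
    norm_num)
  obtain ⟨w, hw⟩ := exists_linearIndependent_cons_of_lt_finrank hu (by
    rw [Module.finrank_fintype_fun_eq_card, Fintype.card_fin]
    norm_num)
  refine ⟨u, w, ?_⟩
  have h4 := hw.comp (![2, 1, 0] : Fin 3 → Fin 3) (by decide)
  have h5 : (Fin.cons w (Fin.cons u ![P]) : Fin 3 → Fin 3 → ℂ) ∘ (![2, 1, 0] : Fin 3 → Fin 3) =
      ![P, u, w] := by
    funext i
    fin_cases i <;> rfl
  rwa [h5] at h4

/-- A change of the two directions. -/
theorem linInd_change {P u w : Fin 3 → ℂ} (h : LinearIndependent ℂ ![P, u, w]) {a : Fin 2 → ℂ}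
    (ha : a ≠ 0) : ∃ i : Fin 2,
      LinearIndependent ℂ ![P, (![u, w] : Fin 2 → Fin 3 → ℂ) i, a 0 • u + a 1 • w] := by
  rw [Fintype.linearIndependent_iff] at h
  have key : ∀ g : Fin 3 → ℂ, g 0 • P + g 1 • u + g 2 • w = 0 → g 0 = 0 ∧ g 1 = 0 ∧ g 2 = 0 := by
    intro g hg
    have h1 := h g (by
      rw [Fin.sum_univ_three]
      exact hg)
    exact ⟨h1 0, h1 1, h1 2⟩
  by_cases h1 : a 1 = 0
  · have h0 : a 0 ≠ 0 := by
      intro h0
      apply ha
      funext i
      fin_cases i
      · exact h0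
      · exact h1
    refine ⟨1, Fintype.linearIndependent_iff.2 fun g hg => ?_⟩
    rw [Fin.sum_univ_three] at hg
    simp only [Matrix.cons_val_zero, Matrix.cons_val_one, Matrix.cons_val_two, Matrix.tail_cons,
      Matrix.head_cons, h1, zero_smul, add_zero] at hg
    obtain ⟨e0, e1, e2⟩ := key ![g 0, g 2 * a 0, g 1] (by
      simp only [Matrix.cons_val_zero, Matrix.cons_val_one, Matrix.cons_val_two,
        Matrix.tail_cons, Matrix.head_cons]
      rw [← hg, smul_smul]
      abel)
    simp only [Matrix.cons_val_zero, Matrix.cons_val_one, Matrix.cons_val_two,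
      Matrix.tail_cons, Matrix.head_cons] at e0 e1 e2
    intro i
    fin_cases i
    · exact e0
    · exact e2
    · exact (mul_eq_zero.1 e1).resolve_right h0
  · refine ⟨0, Fintype.linearIndependent_iff.2 fun g hg => ?_⟩
    rw [Fin.sum_univ_three] at hg
    simp only [Matrix.cons_val_zero, Matrix.cons_val_one, Matrix.cons_val_two, Matrix.tail_cons,
      Matrix.head_cons] at hg
    obtain ⟨e0, e1, e2⟩ := key ![g 0, g 1 + g 2 * a 0, g 2 * a 1] (by
      simp only [Matrix.cons_val_zero, Matrix.cons_val_one, Matrix.cons_val_two,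
        Matrix.tail_cons, Matrix.head_cons]
      rw [← hg, smul_add, smul_smul, smul_smul, add_smul]
      abel)
    simp only [Matrix.cons_val_zero, Matrix.cons_val_one, Matrix.cons_val_two,
      Matrix.tail_cons, Matrix.head_cons] at e0 e1 e2
    have e3 : g 2 = 0 := (mul_eq_zero.1 e2).resolve_right h1
    rw [e3, zero_mul, add_zero] at e1
    intro i
    fin_cases i
    · exact e0
    · exact e1
    · exact e3

/-- The local coordinates and the weights. -/
theorem exists_loc {G R : MvPolynomial (Fin 3) ℂ} {P : Fin 3 → ℂ} (hP : P ≠ 0)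
    (hG : eval P G ≠ 0) (hR : Squarefree R) {n : ℕ} (hn : R.IsHomogeneous n) (hn4 : n ≤ 4)
    (h3 : ∀ v : Fin 3 →₀ ℕ, ∑ i, v i < 3 → coeff v (translate P R) = 0) :
    ∃ L : Loc, L.p = P ∧ L.Sqh (G * R) ∧ L.N ≤ 2 * (L.a + L.b) := by
  obtain ⟨u₀, w₀, hi₀⟩ := exists_dirs hP
  -- the form in the coordinates
  have hform : ∀ u w : Fin 3 → ℂ, LinearIndependent ℂ ![P, u, w] →
      ∃ F : MvPolynomial (Fin 3) ℂ, F.IsHomogeneous n ∧ Squarefree F ∧
        Tay P u w 0 R = deh F := by
    intro u w hi
    obtain ⟨N, h1, h2⟩ := C4.exists_inv hi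
    exact ⟨C4.aM (C4.colM P u w) R, C4.aM_hom hn,
      OB.LinAux.squarefree_equiv (C4.eM _ N h1 h2) hR, tay_eq_deh P u w R⟩
  set Q := homogeneousComponent 3 (translate P R) with hQ
  have hQh : Q.IsHomogeneous 3 := homogeneousComponent_isHomogeneous 3 _
  have hcf : ∀ u w : Fin 3 → ℂ, ∀ m : Fin 2 →₀ ℕ, m 0 + m 1 = 3 →
      coeff m (Tay P u w 0 R) = coeff m (lin u w Q) := by
    intro u w m hm
    rw [tay_eq_lin, coeff_lin, hm]
  by_cases hA0 : lin u₀ w₀ Q = 0
  · -- the cubic part vanishes
    obtain ⟨F, hFh, hFs, hF⟩ := hform u₀ w₀ hi₀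
    have h4 : ∀ m : Fin 2 →₀ ℕ, coeff m (deh F) ≠ 0 → m 0 + m 1 = 4 := by
      intro m hm
      have h5 := coeff_tay hn hn4 h3 (P := P) (u := u₀) (w := w₀) (m := m) (by rwa [hF])
      by_contra hcon
      have h6 : m 0 + m 1 = 3 := by omega
      rw [← hF, hcf u₀ w₀ m h6, hA0, coeff_zero] at hm
      exact hm rfl
    have hn' : n = 4 := by
      obtain ⟨m, hm⟩ := MvPolynomial.ne_zero_iff.1 (deh_ne_zero hFh hFs.ne_zero)
      obtain ⟨v, hv, hv'⟩ := exists_of_coeff hm
      have h5 := sum_three hFh hv'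
      have h6 := h4 m hm
      rw [hv] at h5
      omega
    have hsq : Squarefree (deh F) := squarefree_deh hFh hFs fun m hm => by
      rw [h4 m hm, hn']
    refine ⟨⟨P, u₀, w₀, 0, 1, 1, 4⟩, rfl, mul_sqh hG hi₀ Nat.one_pos Nat.one_pos (by norm_num) ?_ ?_,
      by norm_num⟩
    · rw [hF]
      exact wge_one_one fun m hm => (h4 m hm).ge
    · have h5 : WPart 1 1 4 (Tay P u₀ w₀ 0 R) = deh F := by
        rw [hF]
        ext m
        rw [coeff_wpart']
        split_ifs with h
        · rfl
        · by_contra hc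
          have := h4 m (Ne.symm hc)
          omega
      rw [h5]
      exact hsq
  by_cases hdz : ∀ a : Fin 2 → ℂ, a ≠ 0 → eval a (lin u₀ w₀ Q) = 0 →
      ∃ i, eval a (pderiv i (lin u₀ w₀ Q)) ≠ 0
  · -- an ordinary triple point
    have hsq := squarefree_bin (lin_hom hQh) hA0 hdz
    refine ⟨⟨P, u₀, w₀, 0, 1, 1, 3⟩, rfl, mul_sqh hG hi₀ Nat.one_pos Nat.one_pos (by norm_num) ?_ ?_,
      by norm_num⟩
    · exact wge_one_one fun m hm => (coeff_tay hn hn4 h3 hm).1
    · have h5 : WPart 1 1 3 (Tay P u₀ w₀ 0 R) = lin u₀ w₀ Q := by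
        ext m
        rw [coeff_wpart']
        split_ifs with h
        · exact hcf u₀ w₀ m (by omega)
        · by_contra hc
          have := two_sum (lin_hom hQh) (Ne.symm hc)
          omega
      rw [h5]
      exact hsq
  -- a double zero
  push Not at hdz
  obtain ⟨a, ha, hae, had⟩ := hdz
  obtain ⟨i, hi⟩ := linInd_change hi₀ ha
  set u := (![u₀, w₀] : Fin 2 → Fin 3 → ℂ) i with hu
  set w := a 0 • u₀ + a 1 • w₀ with hw
  have e1 : eval ![0, 1] (lin u w Q) = 0 := by
    rw [eval_lin]
    simp only [Matrix.cons_val_zero, Matrix.cons_val_one, zero_smul, zero_add, one_smul]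
    rw [hw, ← eval_lin]
    exact hae
  have e2 : eval ![0, 1] (pderiv 0 (lin u w Q)) = 0 := by
    have h6 := had i
    rw [pderiv_lin, map_sum] at h6 ⊢
    refine Eq.trans (Finset.sum_congr rfl fun k _ => ?_) h6
    rw [map_mul, map_mul, eval_C, eval_C, eval_lin, eval_lin]
    simp only [Matrix.cons_val_zero, Matrix.cons_val_one, zero_smul, zero_add, one_smul]
    rfl
  obtain ⟨F, hFh, hFs, hF⟩ := hform u w hi
  obtain ⟨a', b', N, p1, p2, p3, p4, p5, p6⟩ := exists_weights (H := Tay P u w 0 R)
    (fun m hm => coeff_tay hn hn4 h3 hm) (by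
      -- the cubic part does not vanish
      by_contra hcon
      push Not at hcon
      apply hA0
      have h7 : lin u w Q = 0 := by
        ext m
        rw [coeff_zero]
        by_contra hc
        have h8 := two_sum (lin_hom hQh) hc
        exact hc ((hcf u w m h8).symm.trans (hcon m h8))
      refine MvPolynomial.funext fun x => ?_
      rw [map_zero, eval_lin]
      obtain ⟨y, hy⟩ : ∃ y : Fin 2 → ℂ, x 0 • u₀ + x 1 • w₀ = y 0 • u + y 1 • w := by
        rcases (by decide : ∀ i : Fin 2, i = 0 ∨ i = 1) i with h9 | h9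
        · have hu' : u = u₀ := by
            rw [hu, h9]
            rfl
          have h1 : a 1 ≠ 0 := by
            intro h1
            rw [hu', hw, h1] at hi
            have h10 := Fintype.linearIndependent_iff.1 hi ![0, a 0, -1] (by
              rw [Fin.sum_univ_three]
              simp)
            have := h10 2
            simp at this
          refine ⟨![x 0 - x 1 / a 1 * a 0, x 1 / a 1], ?_⟩
          rw [hu', hw]
          simp only [Matrix.cons_val_zero, Matrix.cons_val_one]
          rw [smul_add, smul_smul, smul_smul, div_mul_cancel₀ _ h1, sub_smul]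
          abel
        · have hu' : u = w₀ := by
            rw [hu, h9]
            rfl
          have h1 : a 0 ≠ 0 := by
            intro h1
            rw [hu', hw, h1] at hi
            have h10 := Fintype.linearIndependent_iff.1 hi ![0, a 1, -1] (by
              rw [Fin.sum_univ_three]
              simp)
            have := h10 2
            simp at this
          refine ⟨![x 1 - x 0 / a 0 * a 1, x 0 / a 0], ?_⟩
          rw [hu', hw]
          simp only [Matrix.cons_val_zero, Matrix.cons_val_one]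
          rw [smul_add, smul_smul, smul_smul, div_mul_cancel₀ _ h1, sub_smul]
          abel
      rw [hy, ← eval_lin, h7, map_zero]) (by
      intro m hm hm1
      rw [hcf u w m hm]
      rcases Nat.lt_or_ge (m 0) 1 with h0 | h0
      · have h8 : m = Finsupp.single 1 3 := by
          refine Finsupp.ext fun j => ?_
          fin_cases j
          · simp only [Fin.zero_eta, Fin.isValue]
            rw [Finsupp.single_eq_of_ne (by decide)]
            omega
          · simp only [Fin.mk_one, Fin.isValue, Finsupp.single_eq_same]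
            omega
        rw [h8, ← eval_zero_one (lin_hom hQh)]
        exact e1
      · have h8 : m = Finsupp.single 1 2 + Finsupp.single 0 1 := by
          refine Finsupp.ext fun j => ?_
          fin_cases j
          · simp only [Fin.zero_eta, Fin.isValue, Finsupp.add_apply, Finsupp.single_eq_same]
            rw [Finsupp.single_eq_of_ne (by decide)]
            omega
          · simp only [Fin.mk_one, Fin.isValue, Finsupp.add_apply, Finsupp.single_eq_same]
            rw [Finsupp.single_eq_of_ne (by decide)]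
            omega
        have h9 : (pderiv 0 (lin u w Q)).IsHomogeneous 2 := (lin_hom hQh).pderiv
        have h10 := e2
        rw [eval_zero_one h9, coeff_pderiv] at h10
        rw [h8]
        exact (mul_eq_zero.1 h10).resolve_right (Nat.cast_add_one_ne_zero _)) (by
      rw [hF]
      exact not_sq_dvd hFh hFs)
  exact ⟨⟨P, u, w, 0, a', b', N⟩, rfl, mul_sqh hG hi p1 p2 p3 p5 p6, p4⟩

end MPb07157.F5
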