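import Pool.Agent.Lib.MP_b07157_agD5.B0
import Pool.Agent.Lib.MP_b07157_agC4.Main
import Pool.Agent.Lib.MP_b07157_agQ.FinQ

/-!
# A triple point of a reduced curve of degree at most five
-/

noncomputable section

namespace MPb07157.F5

open MvPolynomial

theorem coeff_zero_tr (f : MvPolynomial (Fin 3) ℂ) (p : Fin 3 → ℂ) :
    coeff 0 (translate p f) = eval p f := by
  have h : constantCoeff (translate p f) = eval p f := by
    unfold translate
    rw [aeval_def, hom_eval₂]
    simp [eval_eq', eval₂_eq']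
  rw [← h, constantCoeff_eq]

/-- Two vectors which complete `P` to a basis. -/
theorem exists_basis {P : Fin 3 → ℂ} (hP : P ≠ 0) :
    ∃ q₁ q₂ : Fin 3 → ℂ, LinearIndependent ℂ ![P, q₁, q₂] := by
  obtain ⟨i, hi⟩ := Function.ne_iff.1 hP
  simp only [Pi.zero_apply] at hi
  have hdet : ∀ a b : Fin 3 → ℂ, (Matrix.of ![P, a, b]).det ≠ 0 →
      LinearIndependent ℂ ![P, a, b] := by
    intro a b h
    have h2 := Matrix.linearIndependent_rows_iff_isUnit (A := Matrix.of ![P, a, b])
    exact h2.2 ((Matrix.isUnit_iff_isUnit_det _).2 (isUnit_iff_ne_zero.2 h))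
  fin_cases i
  · refine ⟨![0, 1, 0], ![0, 0, 1], hdet _ _ ?_⟩
    simpa [Matrix.det_fin_three] using hi
  · refine ⟨![1, 0, 0], ![0, 0, 1], hdet _ _ ?_⟩
    simpa [Matrix.det_fin_three] using hi
  · refine ⟨![1, 0, 0], ![0, 1, 0], hdet _ _ ?_⟩
    simpa [Matrix.det_fin_three] using hi

/-- The greatest degree on the lines through `P` is the degree in `X 0` in coordinates with
`P = (1, 0, 0)`. -/
theorem degreeOf_aM {P q₁ q₂ : Fin 3 → ℂ} (hli : LinearIndependent ℂ ![P, q₁, q₂])
    {h : MvPolynomial (Fin 3) ℂ} (h0 : h ≠ 0) :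
    C4.aM (C4.colM P q₁ q₂) h ≠ 0 ∧
      (∀ q, (lineP h P q).natDegree ≤ (C4.aM (C4.colM P q₁ q₂) h).degreeOf 0) ∧
      ∃ q, (lineP h P q).natDegree = (C4.aM (C4.colM P q₁ q₂) h).degreeOf 0 := by
  obtain ⟨N, h1, h2⟩ := C4.exists_inv hli
  set M := C4.colM P q₁ q₂ with hM
  have hg0 : C4.aM M h ≠ 0 :=
    (map_ne_zero_iff (C4.eM M N h1 h2) (C4.eM M N h1 h2).injective).2 h0
  refine ⟨hg0, fun q => ?_, ?_⟩
  · have h3 : q = (N.mulVec q 0) • P + ((N.mulVec q 1) • q₁ + (N.mulVec q 2) • q₂) := by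
      have h4 : M.mulVec (N.mulVec q) = q := by
        rw [Matrix.mulVec_mulVec, h1, Matrix.one_mulVec]
      funext i
      have h5 := congrFun h4 i
      rw [Matrix.mulVec, dotProduct, Fin.sum_univ_three] at h5
      rw [← h5, hM]
      simp only [C4.colM, Matrix.of_apply, Matrix.cons_val_zero, Matrix.cons_val_one,
        Matrix.cons_val_two, Matrix.tail_cons, Matrix.head_cons, Pi.add_apply, Pi.smul_apply,
        smul_eq_mul]
      ring
    rw [h3, C4.natDegree_lineP_shift, ← C4.Uf_aM]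
    exact C4.natDegree_Uf_le _ _ _
  · obtain ⟨a, b, hab⟩ := C4.exists_natDegree_Uf hg0
    refine ⟨a • q₁ + b • q₂, ?_⟩
    rw [← C4.Uf_aM]
    exact hab

theorem lineP_prod {ι : Type} (s : Finset ι) (g : ι → MvPolynomial (Fin 3) ℂ)
    (P q : Fin 3 → ℂ) : lineP (∏ j ∈ s, g j) P q = ∏ j ∈ s, lineP (g j) P q := by
  unfold lineP
  rw [map_prod]

theorem lineP_pow (g : MvPolynomial (Fin 3) ℂ) (k : ℕ) (P q : Fin 3 → ℂ) :
    lineP (g ^ k) P q = lineP g P q ^ k := by
  unfold lineP
  rw [map_pow]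

/-- If the reduced curve has degree at most five and a triple point `P`, then `CondPencil` holds
or some component does not contain `P`. -/
theorem pencil_or_avoid {l : ℕ} {f : MvPolynomial (Fin 3) ℂ} {g : Fin l → MvPolynomial (Fin 3) ℂ}
    {m : Fin l → ℕ} {d n : ℕ} (hf : IsFact f g m) (hd : 0 < d) (hh : f.IsHomogeneous d)
    (hn : (∏ j, g j).IsHomogeneous n) (hn5 : n ≤ 5) {P : Fin 3 → ℂ} (hP : P ≠ 0)
    (h3 : ∀ v : Fin 3 →₀ ℕ, ∑ i, v i < 3 → coeff v (translate P (∏ j, g j)) = 0) :
    CondPencil f d ∨ ∃ j, eval P (g j) ≠ 0 := by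
  classical
  by_cases hav : ∃ j, eval P (g j) ≠ 0
  · exact Or.inr hav
  left
  push Not at hav
  choose k hk hgk using hf.exists_degree hh
  have hg0 : ∀ j, g j ≠ 0 := fun j => (hf.irr j).ne_zero
  have hprod0 : (∏ j, g j) ≠ 0 := Finset.prod_ne_zero_iff.2 fun j _ => hg0 j
  have hf0 : f ≠ 0 := hf.ne_zero
  have hdk : d = ∑ j, m j * k j := by
    have h1 : (∏ j, g j ^ m j).IsHomogeneous (∑ j, k j * m j) :=
      IsHomogeneous.prod _ _ _ fun j _ => (hgk j).pow (m j)
    have h2 := hf.eq
    unfold prodPow at h2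
    rw [← h2] at h1
    rw [hh.inj_right h1 hf0]
    exact Finset.sum_congr rfl fun j _ => mul_comm _ _
  have hnk : n = ∑ j, k j :=
    hn.inj_right (IsHomogeneous.prod _ _ _ fun j _ => hgk j) hprod0
  obtain ⟨q₁, q₂, hli⟩ := exists_basis hP
  set e : Fin l → ℕ := fun j => (C4.aM (C4.colM P q₁ q₂) (g j)).degreeOf 0 with he
  have hek : ∀ j, e j < k j := by
    intro j
    obtain ⟨-, -, q, hq⟩ := degreeOf_aM hli (hg0 j)
    have h1 := D5.natDegree_lineP_le (k := 1) (hgk j) (P := P) (fun v hv => by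
      have h2 : v = 0 := by
        ext i
        have h4 := Finset.single_le_sum (f := fun i => v i) (fun i _ => Nat.zero_le _)
          (Finset.mem_univ i)
        simp only [Finsupp.coe_zero, Pi.zero_apply]
        omega
      rw [h2, coeff_zero_tr]
      exact hav j) q
    have h2 : e j ≤ k j - 1 := by
      rw [he]
      show (C4.aM (C4.colM P q₁ q₂) (g j)).degreeOf 0 ≤ k j - 1
      rw [← hq]
      exact h1
    have := hk j
    omega
  -- the sum of the numbers `e j`
  have hsum : ∑ j, e j + 3 ≤ n := by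
    obtain ⟨-, -, q, hq⟩ := degreeOf_aM hli hprod0
    have h1 := D5.natDegree_lineP_le (k := 3) hn (P := P) h3 q
    rw [hq, map_prod, degreeOf_prod_eq _ _ (fun j _ => (degreeOf_aM hli (hg0 j)).1)] at h1
    have h2 : ∑ j, e j ≤ n - 3 := h1
    by_contra hcon
    -- the case `n < 3`
    have h5 : n < 3 := by omega
    have h6 : ∀ v, coeff v (translate P (∏ j, g j)) = 0 := by
      intro v
      by_contra h7
      have h8 := D5.sum_le_of_coeff_translate hn P h7
      exact h7 (h3 v (by omega))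
    have h7 : translate P (∏ j, g j) = 0 := by
      ext v
      rw [h6, coeff_zero]
    apply hprod0
    refine MvPolynomial.funext fun x => ?_
    have h8 := D5.eval_translate' P (x - P) (∏ j, g j)
    rw [h7, map_zero, sub_add_cancel] at h8
    rw [← h8, map_zero]
  set E := (C4.aM (C4.colM P q₁ q₂) f).degreeOf 0 with hE
  have hEe : E = ∑ j, m j * e j := by
    have h2 := hf.eq
    unfold prodPow at h2
    rw [hE, h2, map_prod, degreeOf_prod_eq]
    · refine Finset.sum_congr rfl fun j _ => ?_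
      rw [map_pow, degreeOf_pow_eq _ _ _ (degreeOf_aM hli (hg0 j)).1]
    · intro j _
      rw [map_pow]
      exact pow_ne_zero _ (degreeOf_aM hli (hg0 j)).1
  obtain ⟨-, hE1, hE2⟩ := degreeOf_aM hli hf0
  have hj0 : 0 < l := hf.pos_card hd hh
  have hle : ∀ j, e j ≤ 2 := by
    intro j
    have h4 := Finset.single_le_sum (f := e) (fun i _ => Nat.zero_le _) (Finset.mem_univ j)
    omega
  have hlt : E < d := by
    rw [hEe, hdk]
    refine Finset.sum_lt_sum_of_nonempty ⟨⟨0, hj0⟩, Finset.mem_univ _⟩ fun j _ => ?_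
    exact Nat.mul_lt_mul_of_pos_left (hek j) (hf.pos j)
  have hne : 3 * E < 2 * d := by
    rw [hEe, hdk, Finset.mul_sum, Finset.mul_sum]
    have hj : ∃ j, 3 * e j < 2 * k j := by
      by_contra hcon
      push Not at hcon
      have h4 : ∑ j, 2 * k j ≤ ∑ j, 3 * e j := Finset.sum_le_sum fun j _ => hcon j
      rw [← Finset.mul_sum, ← Finset.mul_sum, ← hnk] at h4
      omega
    obtain ⟨j, hj⟩ := hj
    refine Finset.sum_lt_sum (fun i _ => ?_) ⟨j, Finset.mem_univ _, ?_⟩
    · have h4 : 3 * e i ≤ 2 * k i := by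
        have := hle i
        have := hek i
        omega
      calc 3 * (m i * e i) = m i * (3 * e i) := by ring
        _ ≤ m i * (2 * k i) := Nat.mul_le_mul_left _ h4
        _ = 2 * (m i * k i) := by ring
    · calc 3 * (m j * e j) = m j * (3 * e j) := by ring
        _ < m j * (2 * k j) := Nat.mul_lt_mul_of_pos_left hj (hf.pos j)
        _ = 2 * (m j * k j) := by ring
  refine ⟨P, E, hP, hlt, by omega, hE1, hE2, Or.inr fun q => ?_⟩
  -- the points of the curve on the lines through `P`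
  have hfq : lineP f P q = ∏ j, lineP (g j) P q ^ m j := by
    have h2 := hf.eq
    unfold prodPow at h2
    rw [h2, lineP_prod]
    exact Finset.prod_congr rfl fun j _ => lineP_pow _ _ _ _
  by_cases hz : lineP f P q = 0
  · rw [hz]
    simp
  have hz' : ∀ j, lineP (g j) P q ≠ 0 := by
    intro j hj
    apply hz
    rw [hfq]
    refine Finset.prod_eq_zero (Finset.mem_univ j) ?_
    rw [hj, zero_pow (hf.pos j).ne']
  have hred : lineP (∏ j, g j) P q ≠ 0 := by
    rw [lineP_prod]
    exact Finset.prod_ne_zero_iff.2 fun j _ => hz' j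
  have hsub : (lineP f P q).roots.toFinset ⊆ (lineP (∏ j, g j) P q).roots.toFinset := by
    intro x hx
    rw [Multiset.mem_toFinset, Polynomial.mem_roots hz, Polynomial.IsRoot.def, hfq,
      Polynomial.eval_prod, Finset.prod_eq_zero_iff] at hx
    obtain ⟨j, -, hx⟩ := hx
    rw [Polynomial.eval_pow, pow_eq_zero_iff (hf.pos j).ne'] at hx
    rw [Multiset.mem_toFinset, Polynomial.mem_roots hred, Polynomial.IsRoot.def, lineP_prod,
      Polynomial.eval_prod]
    exact Finset.prod_eq_zero (Finset.mem_univ j) hx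
  refine (Finset.card_le_card hsub).trans ((Multiset.toFinset_card_le _).trans
    ((Polynomial.card_roots' _).trans ?_))
  refine (D5.natDegree_lineP_le (k := 3) hn (P := P) h3 q).trans ?_
  omega

end MPb07157.F5
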