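import Pool.Agent.Lib.MP_b07157_agF5.Pair
import Pool.Agent.Lib.MP_b07157_agF5.Univ

/-!
# Double points of the reduced curve
-/

noncomputable section

namespace MPb07157.F5

open MvPolynomial Spl D5

/-- A series without constant and linear terms has order at least two. -/
theorem lowZ_two_of {n : ℕ} {G : MvPowerSeries (Fin n) ℂ}
    (h0 : MvPowerSeries.constantCoeff G = 0) (h1 : Gr G = 0) : LowZ 2 G := by
  intro v hv
  by_cases hv0 : v = 0
  · rw [hv0, MvPowerSeries.coeff_zero_eq_constantCoeff_apply, h0]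
  obtain ⟨i, hi⟩ : ∃ i, v i ≠ 0 := by
    by_contra hcon
    push Not at hcon
    exact hv0 (Finsupp.ext hcon)
  have hv2 : v = Finsupp.single i 1 := by
    have h4 : ∑ k, v k = v i + ∑ k ∈ Finset.univ.erase i, v k :=
      (Finset.add_sum_erase _ _ (Finset.mem_univ i)).symm
    have h5 : ∑ k ∈ Finset.univ.erase i, v k = 0 := by omega
    rw [Finset.sum_eq_zero_iff] at h5
    refine Finsupp.ext fun k => ?_
    by_cases hk : k = i
    · subst hk
      rw [Finsupp.single_eq_same]
      omega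
    · rw [Finsupp.single_eq_of_ne hk, h5 k (Finset.mem_erase.2 ⟨hk, Finset.mem_univ _⟩)]
  rw [hv2, ← cc_pderiv]
  exact congrFun h1 i

theorem lowZ_one_of {n : ℕ} {G : MvPowerSeries (Fin n) ℂ}
    (h0 : MvPowerSeries.constantCoeff G = 0) : LowZ 1 G := by
  intro v hv
  have h1 : v = 0 := by
    refine Finsupp.ext fun i => ?_
    have h2 : v i ≤ ∑ k, v k := Finset.single_le_sum (fun _ _ => Nat.zero_le _) (Finset.mem_univ i)
    rw [Finsupp.coe_zero, Pi.zero_apply]
    omega
  rw [h1, MvPowerSeries.coeff_zero_eq_constantCoeff_apply, h0]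

theorem lowZ_prod_of {n : ℕ} {ι : Type} (s : Finset ι) (A : ι → MvPowerSeries (Fin n) ℂ)
    (h : ∀ j ∈ s, LowZ 1 (A j)) : LowZ s.card (∏ j ∈ s, A j) := by
  classical
  induction s using Finset.induction_on with
  | empty => exact LowZ.zero _
  | insert a s ha ih =>
    rw [Finset.prod_insert ha, Finset.card_insert_of_notMem ha, add_comm]
    exact (h a (Finset.mem_insert_self a s)).mul
      (ih fun j hj => h j (Finset.mem_insert_of_mem hj))

/-- The end of the proof of `isWHAt_of_coeff`. -/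
theorem two_finish {f : MvPolynomial (Fin 3) ℂ} {p : Fin 3 → ℂ} {i₀ : Fin 3}
    {G h' : MvPolynomial (Fin 2) ℂ}
    (hg : FormEquivPow (translate p f) (rename i₀.succAbove G) 1) {w : Fin 2 → ℕ} {N : ℕ}
    (hw0 : 0 < w 0) (hw1 : 0 < w 1) (hN : 0 < N)
    (hsup : ∀ v ∈ h'.support, w 0 * v 0 + w 1 * v 1 = N) (hform : FormEquivPow G h' 1) :
    IsWHAt f p := by
  classical
  have h1 := hform.rename_inj (c := i₀.succAbove) Fin.succAbove_right_injective
  obtain ⟨σ, hσ⟩ := exists_perm i₀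
  have h2 : FormEquivPow (rename Fin.castSucc h' : MvPolynomial (Fin 3) ℂ)
      (rename i₀.succAbove h') 1 := by
    have h3 := Cub.formEquivPow_of_polyEquiv (renameEquiv ℂ σ) (fun i => by simp)
      (fun i => by simp) (rename i₀.succAbove h')
    have h4 : (renameEquiv ℂ σ) (rename i₀.succAbove h') = rename Fin.castSucc h' := by
      rw [renameEquiv_apply, rename_rename]
      congr 1
      congr 1
      funext j
      exact hσ j
    rwa [h4] at h3
  refine ⟨rename Fin.castSucc h', ![w 0, w 1, 1], N, hw0, hw1, hN, ?_,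
    formEquivPow_trans (formEquivPow_trans hg h1) (Cub.formEquivPow_symm h2)⟩
  intro v hv
  rw [support_rename_of_injective (Fin.castSucc_injective 2), Finset.mem_image] at hv
  obtain ⟨v', hv', rfl⟩ := hv
  have e0 : (Finsupp.mapDomain Fin.castSucc v' : Fin 3 →₀ ℕ) 0 = v' 0 :=
    Finsupp.mapDomain_apply (Fin.castSucc_injective 2) v' 0
  have e1 : (Finsupp.mapDomain Fin.castSucc v' : Fin 3 →₀ ℕ) 1 = v' 1 :=
    Finsupp.mapDomain_apply (Fin.castSucc_injective 2) v' 1
  have e2 : (Finsupp.mapDomain Fin.castSucc v' : Fin 3 →₀ ℕ) 2 = 0 := by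
    apply Finsupp.mapDomain_of_notMem_range
    rintro ⟨j, hj⟩
    exact absurd hj (Fin.castSucc_lt_last j).ne
  refine ⟨?_, e2⟩
  rw [e0, e1]
  exact hsup v' hv'

theorem support_pow_weight {h' : MvPolynomial (Fin 2) ℂ} {w : Fin 2 → ℕ} {N : ℕ}
    (hsup : ∀ v ∈ h'.support, w 0 * v 0 + w 1 * v 1 = N) (m : ℕ) :
    ∀ v ∈ (h' ^ m).support, w 0 * v 0 + w 1 * v 1 = N * m := by
  have hwt : ∀ v : Fin 2 →₀ ℕ, Finsupp.weight w v = w 0 * v 0 + w 1 * v 1 := by
    intro v
    rw [Finsupp.weight_apply, Finsupp.sum_fintype _ _ (fun i => by simp), Fin.sum_univ_two,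
      smul_eq_mul, smul_eq_mul, mul_comm (v 0), mul_comm (v 1)]
  have h1 : IsWeightedHomogeneous w h' N := by
    intro v hv
    rw [hwt]
    exact hsup v (mem_support_iff.2 hv)
  have h2 := h1.pow m
  intro v hv
  rw [← hwt, h2 (mem_support_iff.1 hv), smul_eq_mul, mul_comm]

/-- The points of multiplicity one or two of the reduced curve are quasi-homogeneous, whatever the
multiplicities of the components. -/
theorem isWHAt_of_red {l : ℕ} {f : MvPolynomial (Fin 3) ℂ} {g : Fin l → MvPolynomial (Fin 3) ℂ}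
    {m : Fin l → ℕ} {d : ℕ} (hf : IsFact f g m) (hh : f.IsHomogeneous d) {p : Fin 3 → ℂ}
    (hp : p ≠ 0) (h0 : eval p f = 0) {v : Fin 3 →₀ ℕ} (hv : ∑ i, v i ≤ 2)
    (hc : coeff v (translate p (∏ j, g j)) ≠ 0) : IsWHAt f p := by
  classical
  obtain ⟨i₀, hi₀⟩ := Function.ne_iff.1 hp
  obtain ⟨e, ul, hul⟩ := formEquiv_univ (n := 2) (p := p) (i₀ := i₀) hi₀
  choose dg hdg0 hdg using hf.exists_degree hh
  choose G hG using fun j => hul (g j) (dg j) (hdg j)
  let c : Fin 2 ↪ Fin 3 := ⟨i₀.succAbove, Fin.succAbove_right_injective⟩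
  have hR : ∀ q : MvPolynomial (Fin 2) ℂ, MvPowerSeries.rename c (q : MvPowerSeries (Fin 2) ℂ) =
      ((rename i₀.succAbove q : MvPolynomial (Fin 3) ℂ) : MvPowerSeries (Fin 3) ℂ) := fun q =>
    MvPowerSeries.rename_coe (f := c) q
  -- products
  have hφ : ∀ m' : Fin l → ℕ, ((translate p (∏ j, g j ^ m' j) : MvPolynomial (Fin 3) ℂ) :
      MvPowerSeries (Fin 3) ℂ) = ((∏ j, (ul ^ dg j) ^ m' j : (MvPowerSeries (Fin 3) ℂ)ˣ) :
        MvPowerSeries (Fin 3) ℂ) * e (MvPowerSeries.rename c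
          (∏ j, (G j : MvPowerSeries (Fin 2) ℂ) ^ m' j)) := by
    intro m'
    have h1 : ((translate p (∏ j, g j ^ m' j) : MvPolynomial (Fin 3) ℂ) :
        MvPowerSeries (Fin 3) ℂ) = ∏ j, ((translate p (g j) : MvPolynomial (Fin 3) ℂ) :
          MvPowerSeries (Fin 3) ℂ) ^ m' j := by
      have h2 : translate p (∏ j, g j ^ m' j) = ∏ j, translate p (g j) ^ m' j := by
        unfold translate
        rw [map_prod]
        exact Finset.prod_congr rfl fun j _ => map_pow _ _ _
      rw [h2]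
      have h3 := map_prod (MvPolynomial.coeToMvPowerSeries.ringHom (σ := Fin 3) (R := ℂ))
        (fun j => translate p (g j) ^ m' j) Finset.univ
      simp only [map_pow] at h3
      exact h3
    rw [h1, map_prod, map_prod, Units.coe_prod, ← Finset.prod_mul_distrib]
    refine Finset.prod_congr rfl fun j _ => ?_
    rw [map_pow, map_pow, hR, hG j, mul_pow]
    simp only [Units.val_pow_eq_pow_val]
  have hcc : ∀ j, MvPowerSeries.constantCoeff (G j : MvPowerSeries (Fin 2) ℂ) = 0 ↔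
      eval p (g j) = 0 := by
    intro j
    have h1 := congrArg MvPowerSeries.constantCoeff (hG j)
    rw [map_mul, constantCoeff_equiv, ← hR, MvPowerSeries.constantCoeff_rename,
      ← MvPowerSeries.coeff_zero_eq_constantCoeff_apply, MvPolynomial.coeff_coe,
      coeff_zero_translate'] at h1
    rw [h1, mul_eq_zero, or_iff_right]
    exact (MvPowerSeries.isUnit_iff_constantCoeff.1 (ul ^ dg j).isUnit).ne_zero
  have hn3 : ¬ LowZ 3 (∏ j, (G j : MvPowerSeries (Fin 2) ℂ)) := by
    intro h3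
    apply hc
    have h1 := lowZ_hom (MvPowerSeries.rename c) h3
    have h2 := lowZ_hom (e : MvPowerSeries (Fin 3) ℂ →ₐ[ℂ] MvPowerSeries (Fin 3) ℂ) h1
    have h4 := hφ fun _ => 1
    simp only [pow_one] at h4
    have h5 : LowZ 3 ((translate p (∏ j, g j) : MvPolynomial (Fin 3) ℂ) :
        MvPowerSeries (Fin 3) ℂ) := by
      rw [h4]
      exact h2.mul_left _
    rw [← MvPolynomial.coeff_coe]
    exact h5 v (Nat.lt_succ_of_le hv)
  -- the components through `p`
  set S : Finset (Fin l) := Finset.univ.filter fun j => eval p (g j) = 0 with hS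
  have hS1 : ∀ j ∈ S, LowZ 1 (G j : MvPowerSeries (Fin 2) ℂ) := fun j hj =>
    lowZ_one_of ((hcc j).2 (Finset.mem_filter.1 hj).2)
  have hsplit : ∀ A : Fin l → MvPowerSeries (Fin 2) ℂ, ∏ j, A j =
      (∏ j ∈ Finset.univ.filter (fun j => ¬ eval p (g j) = 0), A j) * ∏ j ∈ S, A j := by
    intro A
    rw [mul_comm]
    exact (Finset.prod_filter_mul_prod_filter_not _ _ _).symm
  have hcard2 : S.card ≤ 2 := by
    by_contra hcon
    apply hn3
    rw [hsplit]
    exact ((lowZ_prod_of S _ hS1).mono (by omega)).mul_left _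
  -- the other components
  have hU : IsUnit (∏ j ∈ Finset.univ.filter (fun j => ¬ eval p (g j) = 0),
      (G j : MvPowerSeries (Fin 2) ℂ) ^ m j) := by
    rw [MvPowerSeries.isUnit_iff_constantCoeff, map_prod, isUnit_iff_ne_zero,
      Finset.prod_ne_zero_iff]
    intro j hj
    rw [map_pow]
    exact pow_ne_zero _ fun h => (Finset.mem_filter.1 hj).2 ((hcc j).1 h)
  obtain ⟨U, hU⟩ := hU
  have hprod : (((∏ j, G j ^ m j : MvPolynomial (Fin 2) ℂ)) : MvPowerSeries (Fin 2) ℂ) =
      U * ∏ j ∈ S, (G j : MvPowerSeries (Fin 2) ℂ) ^ m j := by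
    rw [hU, ← hsplit fun j => (G j : MvPowerSeries (Fin 2) ℂ) ^ m j]
    have h3 := map_prod (MvPolynomial.coeToMvPowerSeries.ringHom (σ := Fin 2) (R := ℂ))
      (fun j => G j ^ m j) Finset.univ
    simp only [map_pow] at h3
    exact h3
  have hfg : FormEquivPow (translate p f) (rename i₀.succAbove (∏ j, G j ^ m j)) 1 := by
    refine ⟨e, ∏ j, (ul ^ dg j) ^ m j, ?_⟩
    have h1 : f = ∏ j, g j ^ m j := hf.eq
    rw [pow_one, h1, hφ m, ← hR]
    have h3 := map_prod (MvPolynomial.coeToMvPowerSeries.ringHom (σ := Fin 2) (R := ℂ))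
      (fun j => G j ^ m j) Finset.univ
    simp only [map_pow] at h3
    have h4 : (((∏ j, G j ^ m j : MvPolynomial (Fin 2) ℂ)) : MvPowerSeries (Fin 2) ℂ) =
      ∏ j, (G j : MvPowerSeries (Fin 2) ℂ) ^ m j := h3
    rw [h4]
  have hSne : S.card ≠ 0 := by
    intro h1
    rw [Finset.card_eq_zero] at h1
    have h2 : f = ∏ j, g j ^ m j := hf.eq
    rw [h2, map_prod, Finset.prod_eq_zero_iff] at h0
    obtain ⟨j, -, hj⟩ := h0
    rw [map_pow] at hj
    have h3 : j ∈ S := Finset.mem_filter.2 ⟨Finset.mem_univ _,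
      (pow_eq_zero_iff (hf.pos j).ne').1 hj⟩
    rw [h1] at h3
    exact absurd h3 (Finset.notMem_empty j)
  rcases (by omega : S.card = 1 ∨ S.card = 2) with h1 | h1
  · obtain ⟨j, hj⟩ := Finset.card_eq_one.1 h1
    have hjS : j ∈ S := by rw [hj]; exact Finset.mem_singleton_self j
    have hj0 : MvPowerSeries.constantCoeff (G j : MvPowerSeries (Fin 2) ℂ) = 0 :=
      (hcc j).2 (Finset.mem_filter.1 hjS).2
    have hne : Gr (G j : MvPowerSeries (Fin 2) ℂ) ≠ 0 ∨
        Hs (G j : MvPowerSeries (Fin 2) ℂ) ≠ 0 := by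
      by_contra hcon
      push Not at hcon
      apply hn3
      rw [hsplit, hj, Finset.prod_singleton]
      exact (lowZ_three hj0 hcon.1 hcon.2).mul_left _
    obtain ⟨e', h', w, N, hw0, hw1, hN, hsup, he'⟩ := germ_two hj0 hne
    refine two_finish (h' := h' ^ m j) (N := N * m j) hfg hw0 hw1 (Nat.mul_pos hN (hf.pos j))
      (support_pow_weight hsup (m j)) ⟨e'.symm, U, ?_⟩
    rw [pow_one, hprod, hj, Finset.prod_singleton, MvPolynomial.coe_pow, map_pow, ← he',
      AlgEquiv.symm_apply_apply]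
  · obtain ⟨j, k, hjk, hS2⟩ := Finset.card_eq_two.1 h1
    have hjS : j ∈ S := by rw [hS2]; exact Finset.mem_insert_self j _
    have hkS : k ∈ S := by
      rw [hS2]
      exact Finset.mem_insert_of_mem (Finset.mem_singleton_self k)
    have hj0 : MvPowerSeries.constantCoeff (G j : MvPowerSeries (Fin 2) ℂ) = 0 :=
      (hcc j).2 (Finset.mem_filter.1 hjS).2
    have hk0 : MvPowerSeries.constantCoeff (G k : MvPowerSeries (Fin 2) ℂ) = 0 :=
      (hcc k).2 (Finset.mem_filter.1 hkS).2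
    have hGj : Gr (G j : MvPowerSeries (Fin 2) ℂ) ≠ 0 := by
      intro hcon
      apply hn3
      rw [hsplit, hS2, Finset.prod_pair hjk]
      exact ((lowZ_two_of hj0 hcon).mul (hS1 k hkS)).mul_left _
    have hGk : Gr (G k : MvPowerSeries (Fin 2) ℂ) ≠ 0 := by
      intro hcon
      apply hn3
      rw [hsplit, hS2, Finset.prod_pair hjk]
      exact ((hS1 j hjS).mul (lowZ_two_of hk0 hcon)).mul_left _
    obtain ⟨e', u, h', w, N, hw0, hw1, hN, hsup, he'⟩ :=
      germ_pair hj0 hk0 hGj hGk (hf.pos j) (hf.pos k)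
    refine two_finish (h' := h') hfg hw0 hw1 hN hsup ⟨e', U * u, ?_⟩
    rw [pow_one, hprod, hS2, Finset.prod_pair hjk, he', Units.val_mul, mul_assoc]

end MPb07157.F5
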