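import Pool.Agent.Lib.MP_b07157_agF5.FDefs
import Pool.Agent.Lib.MP_b07157_agF5.Two
import Pool.Agent.Lib.MP_b07157_agF5.Num
import Pool.Agent.Lib.MP_b07157_agF5.Loc5
import Pool.Agent.Lib.MP_b07157_agB.Vt
import Pool.Agent.Lib.MP_b07157_agB2.FinA

/-!
# Curves whose reduced curve has degree at most five
-/

noncomputable section

namespace MPb07157.F5

open MvPolynomial

theorem translate_mul (P : Fin 3 → ℂ) (G R : MvPolynomial (Fin 3) ℂ) :
    translate P (G * R) = translate P G * translate P R := by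
  unfold translate
  rw [map_mul]

/-- The multiplicity of a factor. -/
theorem mult_factor {P : Fin 3 → ℂ} {G R : MvPolynomial (Fin 3) ℂ} (hG : eval P G ≠ 0)
    (h : ∀ v : Fin 3 →₀ ℕ, ∑ i, v i < 3 → coeff v (translate P (G * R)) = 0) :
    ∀ (k : ℕ) (v : Fin 3 →₀ ℕ), ∑ i, v i = k → k < 3 → coeff v (translate P R) = 0 := by
  classical
  intro k
  induction k using Nat.strong_induction_on with
  | _ k ih =>
    intro v hv hk
    have h1 := h v (by omega)
    rw [translate_mul, coeff_mul, Finset.sum_eq_single (0, v)] at h1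
    · rw [D5.coeff_zero_translate'] at h1
      exact (mul_eq_zero.1 h1).resolve_left hG
    · rintro ⟨v1, v2⟩ h2 hne
      rw [Finset.HasAntidiagonal.mem_antidiagonal] at h2
      dsimp only at h2 ⊢
      have h3 : ∑ i, v i = ∑ i, v1 i + ∑ i, v2 i := by
        rw [← h2, ← Finset.sum_add_distrib]
        rfl
      have h4 : 0 < ∑ i, v1 i := by
        rw [Nat.pos_iff_ne_zero]
        intro h5
        rw [Finset.sum_eq_zero_iff] at h5
        have h6 : v1 = 0 := Finsupp.ext fun i => h5 i (Finset.mem_univ i)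
        subst h6
        rw [zero_add] at h2
        exact hne (by rw [h2])
      rw [ih (∑ i, v2 i) (by omega) v2 rfl (by omega), mul_zero]
    · intro h2
      exact absurd (Finset.HasAntidiagonal.mem_antidiagonal.2 (zero_add v)) h2

theorem bad_loc {l : ℕ} {f : MvPolynomial (Fin 3) ℂ} {g : Fin l → MvPolynomial (Fin 3) ℂ}
    {m : Fin l → ℕ} {d n : ℕ} (hf : IsFact f g m) (hd : 0 < d) (hh : f.IsHomogeneous d)
    (hn : (∏ j, g j).IsHomogeneous n) (hn5 : n ≤ 5) (hC : ¬ CondPencil f d) {c : ℂ} (hc : c ≠ 0)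
    {P : Fin 3 → ℂ} (hP : P ≠ 0)
    (h3 : ∀ v : Fin 3 →₀ ℕ, ∑ i, v i < 3 → coeff v (translate P (∏ j, g j)) = 0) :
    ∃ L : Loc, L.p = P ∧ L.Sqh (C c * ∏ j, g j) ∧ L.N ≤ 2 * (L.a + L.b) := by
  classical
  obtain ⟨j, hj⟩ := (pencil_or_avoid hf hd hh hn hn5 hP h3).resolve_left hC
  choose e he hg using hf.exists_degree hh
  have hprod : ∏ i, g i = g j * ∏ i ∈ Finset.univ.erase j, g i :=
    (Finset.mul_prod_erase _ _ (Finset.mem_univ j)).symm
  have hP0 : ∏ i, g i ≠ 0 := OK.FinAAux.prod_ne_zero hf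
  have hRh : (∏ i ∈ Finset.univ.erase j, g i).IsHomogeneous
      (∑ i ∈ Finset.univ.erase j, e i) := IsHomogeneous.prod _ _ _ fun i _ => hg i
  have hdeg : n = e j + ∑ i ∈ Finset.univ.erase j, e i := by
    refine hn.inj_right ?_ hP0
    rw [hprod]
    exact (hg j).mul hRh
  have h4 := he j
  have hsq : Squarefree (∏ i ∈ Finset.univ.erase j, g i) :=
    (OK.squarefree_prod hf).squarefree_of_dvd (by rw [hprod]; exact dvd_mul_left _ _)
  rw [hprod] at h3
  obtain ⟨L, h5, h6, h7⟩ := exists_loc (G := C c * g j) hP (by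
    rw [map_mul, eval_C]
    exact mul_ne_zero hc hj) hsq hRh (by omega)
    (fun v hv => mult_factor hj h3 _ v rfl hv)
  refine ⟨L, h5, ?_, h7⟩
  rw [hprod, ← mul_assoc]
  exact h6

/-- If the reduced curve has degree at most five, one of the two conditions holds. -/
theorem pencil_or_sqhOrd {f : MvPolynomial (Fin 3) ℂ} {d : ℕ} (hf : f ≠ 0) (hd : 0 < d)
    (hh : f.IsHomogeneous d) (h : RedDeg f 5) : CondPencil f d ∨ SqhOrd f := by
  classical
  obtain ⟨F, k, n, hFs, hFf, hfF, hFn, hn5⟩ := h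
  obtain ⟨l, g, m, hfact⟩ := exists_isFact hf hd hh
  obtain ⟨c, hc, hF⟩ := OB.eq_of_squarefree hfact hFs hFf hfF
  by_cases hC : CondPencil f d
  · exact Or.inl hC
  right
  have hn : (∏ j, g j).IsHomogeneous n := by
    have h1 : ∏ j, g j = C c⁻¹ * F := by
      rw [hF, ← mul_assoc, ← map_mul, inv_mul_cancel₀ hc, map_one, one_mul]
    rw [h1]
    exact hFn.C_mul _
  -- the bad points
  let Bad : (Fin 3 → ℂ) → Prop := fun P => P ≠ 0 ∧ eval P f = 0 ∧ ¬ IsWHAt f P
  have hmult : ∀ P, Bad P →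
      ∀ v : Fin 3 →₀ ℕ, ∑ i, v i < 3 → coeff v (translate P (∏ j, g j)) = 0 := by
    rintro P ⟨hP, h0, hw⟩ v hv
    by_contra hcon
    exact hw (isWHAt_of_red hfact hh hP h0 (by omega) hcon)
  have hloc : ∀ P, Bad P → ∃ L : Loc, L.p = P ∧ L.Sqh F ∧ L.N ≤ 2 * (L.a + L.b) := by
    intro P hP
    rw [hF]
    exact bad_loc hfact hd hh hn hn5 hC hc hP.1 (hmult P hP)
  -- finitely many
  choose e he hg using hfact.exists_degree hh
  have hfact' : IsFact (∏ j, g j) g (fun _ => 1) :=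
    ⟨hfact.irr, hfact.ne, fun _ => Nat.one_pos, by simp [prodPow]⟩
  have hn0 : 0 < n := by
    have h1 : n = ∑ j, e j := hn.inj_right (IsHomogeneous.prod _ _ _ fun i _ => hg i)
      (OK.FinAAux.prod_ne_zero hfact)
    rw [h1]
    exact Finset.sum_pos (fun i _ => he i) ⟨⟨0, hfact.pos_card hd hh⟩, Finset.mem_univ _⟩
  obtain ⟨B, hB0, hB⟩ := exists_lines hfact' hn0 hn
  have hBad : ∀ P, Bad P → ∃ b ∈ B, ∃ t : ℂ, P = t • b := by
    intro P hP
    refine hB P hP.1 fun i => ?_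
    rw [← OK.FinAAux.pderiv_prod_eq hfact i]
    have h1 := hmult P hP (Finsupp.single i 1) (by
      rw [Finset.sum_eq_single i (fun j _ hj => Finsupp.single_eq_of_ne hj)
        (fun h => absurd (Finset.mem_univ _) h), Finsupp.single_eq_same]
      norm_num)
    rw [← D5.coeff_zero_translate', ← pderiv_translate, coeff_pderiv, zero_add, h1, zero_mul]
  let S : Finset (Fin 3 → ℂ) := B.filter fun b => ∃ P, Bad P ∧ ∃ t : ℂ, P = t • b
  have hS : ∀ b : S, ∃ P, Bad P ∧ ∃ t : ℂ, P = t • (b : Fin 3 → ℂ) := fun b =>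
    (Finset.mem_filter.1 b.2).2
  choose pt hpt tt htt using hS
  have hL : ∀ b : S, ∃ L : Loc, L.p = pt b ∧ L.Sqh F ∧ L.N ≤ 2 * (L.a + L.b) := fun b =>
    hloc _ (hpt b)
  choose LL hL1 hL2 hL3 using hL
  refine ⟨F, k, n, S.card, fun j => LL (S.equivFin.symm j), hFs, hFf, hfF, hFn,
    fun j => hL2 _, fun c' => ⟨0, Or.inl rfl, fun j v hv => ?_, ?_⟩, fun q hq h0 => ?_⟩
  · exfalso
    have h1 := hL3 (S.equivFin.symm j)
    dsimp only at hv
    omega
  · intro q _ _ _ _ μ _ i _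
    have h1 : translate q (0 : MvPolynomial (Fin 3) ℂ) = 0 := by
      unfold translate
      rw [map_zero]
    rw [h1, map_zero]
  · by_cases hw : IsWHAt f q
    · exact Or.inl hw
    · right
      right
      have hq' : Bad q := ⟨hq, h0, hw⟩
      obtain ⟨b, hb, t, ht⟩ := hBad q hq'
      have hbS : b ∈ S := Finset.mem_filter.2 ⟨hb, q, hq', t, ht⟩
      refine ⟨S.equivFin ⟨b, hbS⟩, t * (tt ⟨b, hbS⟩)⁻¹, ?_⟩
      dsimp only
      rw [Equiv.symm_apply_apply, hL1, htt, smul_smul, mul_assoc, inv_mul_cancel₀, mul_one]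
      · exact ht
      · intro h1
        have h2 := htt ⟨b, hbS⟩
        rw [h1, zero_smul] at h2
        exact (hpt ⟨b, hbS⟩).1 h2

end MPb07157.F5
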