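import Pool.Agent.Lib.MP_b07157_agQ.QDefs

/-!
# The degree of the reduced curve
-/

noncomputable section

namespace MPb07157

open MvPolynomial

/-- The reduced curve of `f = 0` has degree at most `n`: it has a reduced equation `F` of degree
at most `n`. -/
def RedDeg (f : MvPolynomial (Fin 3) ℂ) (n : ℕ) : Prop :=
  ∃ (F : MvPolynomial (Fin 3) ℂ) (k m : ℕ), Squarefree F ∧ F ∣ f ∧ f ∣ F ^ k ∧
    F.IsHomogeneous m ∧ m ≤ n

end MPb07157
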