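import Pool.Agent.Lib.MP_b07157_agF5.Main
import Pool.Agent.Lib.MP_b07157_agO3.MB
import Pool.Agent.Lib.MP_b07157_agC4.Main

/-!
# The root `-3/d` for ternary forms whose reduced curve has degree at most five
-/

noncomputable section

namespace MPb07157

open MvPolynomial

/-- If the reduced curve of the ternary form `f` of degree `d` has degree at most five, then `-3/d`
is a root of the Bernstein-Sato polynomial as soon as it is a pole of one of the two motivic zeta
functions. -/
theorem D5r.smc_redDeg_le_five {f : MvPolynomial (Fin 3) ℂ} (hf : f ≠ 0) {d : ℕ} (hd : 0 < d)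
    (hh : f.IsHomogeneous d) (h : RedDeg f 5)
    (hp : IsPole (Zmot f) (-(3 / d)) ∨ IsPole (Zmot0 f) (-(3 / d))) {b : Polynomial ℂ}
    (hb : IsBernsteinSato f b) : b.eval (((-(3 / d) : ℚ)) : ℂ) = 0 := by
  rcases F5.pencil_or_sqhOrd hf hd hh h with h1 | h1
  · exact C4.root_of_condPencil hf hd hh h1 hp b hb
  · exact smc_sqhOrd hf hd hh h1 hp hb

end MPb07157
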