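import Pool.Agent.Lib.MP_b07157_agD5.A2

/-!
# Two smooth branches
-/

noncomputable section

namespace MPb07157.F5

open MvPolynomial Spl

theorem pair_supp {w : Fin 2 → ℕ} {N : ℕ} {h : MvPolynomial (Fin 2) ℂ}
    (hh : h.IsWeightedHomogeneous w N) : ∀ v ∈ h.support, w 0 * v 0 + w 1 * v 1 = N := by
  intro v hv
  have h1 := hh (mem_support_iff.1 hv)
  rw [Finsupp.weight_apply, Finsupp.sum_fintype _ _ (fun i => by rw [zero_smul]),
    Fin.sum_univ_two, smul_eq_mul, smul_eq_mul] at h1
  rw [← h1, mul_comm (w 0), mul_comm (w 1)]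

/-- A smooth germ is the second coordinate. -/
theorem pair_last {F : MvPowerSeries (Fin 2) ℂ} (h0 : MvPowerSeries.constantCoeff F = 0)
    (hF : Gr F ≠ 0) :
    ∃ e : MvPowerSeries (Fin 2) ℂ ≃ₐ[ℂ] MvPowerSeries (Fin 2) ℂ, e (MvPowerSeries.X 1) = F := by
  classical
  by_cases h1 : MvPowerSeries.coeff (Finsupp.single 1 1) F ≠ 0
  · exact D5.exists_smooth h0 h1
  · rw [not_not] at h1
    have h2 : MvPowerSeries.constantCoeff (MvPowerSeries.pderiv ℂ 0 F) ≠ 0 := by
      intro h2
      apply hF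
      funext i
      fin_cases i
      · exact h2
      · show MvPowerSeries.constantCoeff (MvPowerSeries.pderiv ℂ 1 F) = 0
        rw [Spl.cc_pderiv, h1]
    obtain ⟨e, he⟩ := Spl.exists_equiv'
      (a := (![MvPowerSeries.X 1, F] : Fin 2 → MvPowerSeries (Fin 2) ℂ))
      (by
        intro i
        fin_cases i
        · exact MvPowerSeries.constantCoeff_X 1
        · exact h0)
      (by
        intro v hv
        have h3 := hv 0
        have h4 := hv 1
        rw [Fin.sum_univ_two] at h3 h4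
        have e1 : MvPowerSeries.constantCoeff (MvPowerSeries.pderiv ℂ 0
            (![MvPowerSeries.X 1, F] 0 : MvPowerSeries (Fin 2) ℂ)) = 0 := by
          show MvPowerSeries.constantCoeff (MvPowerSeries.pderiv ℂ 0
            (MvPowerSeries.X 1 : MvPowerSeries (Fin 2) ℂ)) = 0
          rw [Spl.pderiv_X, if_neg (by decide), map_zero]
        have e2 : MvPowerSeries.constantCoeff (MvPowerSeries.pderiv ℂ 1
            (![MvPowerSeries.X 1, F] 0 : MvPowerSeries (Fin 2) ℂ)) = 1 := by
          show MvPowerSeries.constantCoeff (MvPowerSeries.pderiv ℂ 1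
            (MvPowerSeries.X 1 : MvPowerSeries (Fin 2) ℂ)) = 1
          rw [Spl.pderiv_X, if_pos rfl, map_one]
        rw [e1, e2, zero_mul, zero_add, one_mul] at h3
        have h5 : MvPowerSeries.constantCoeff (MvPowerSeries.pderiv ℂ 0 F) * v 0 +
            MvPowerSeries.constantCoeff (MvPowerSeries.pderiv ℂ 1 F) * v 1 = 0 := h4
        rw [h3, mul_zero, add_zero] at h5
        funext i
        fin_cases i
        · exact (mul_eq_zero.1 h5).resolve_left h2
        · exact h3)
    exact ⟨e, he 1⟩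

/-- Two smooth branches with multiplicities are quasi-homogeneous. -/
theorem germ_pair {F G : MvPowerSeries (Fin 2) ℂ} (hF0 : MvPowerSeries.constantCoeff F = 0)
    (hG0 : MvPowerSeries.constantCoeff G = 0) (hF : Gr F ≠ 0) (hG : Gr G ≠ 0) {a b : ℕ}
    (ha : 0 < a) (hb : 0 < b) :
    ∃ (e : MvPowerSeries (Fin 2) ℂ ≃ₐ[ℂ] MvPowerSeries (Fin 2) ℂ)
      (u : (MvPowerSeries (Fin 2) ℂ)ˣ) (h : MvPolynomial (Fin 2) ℂ)
      (w : Fin 2 → ℕ) (N : ℕ), 0 < w 0 ∧ 0 < w 1 ∧ 0 < N ∧
      (∀ v ∈ h.support, w 0 * v 0 + w 1 * v 1 = N) ∧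
      F ^ a * G ^ b = u * e (h : MvPowerSeries (Fin 2) ℂ) := by
  classical
  obtain ⟨e₁, he₁⟩ := pair_last hF0 hF
  set G' : MvPowerSeries (Fin 2) ℂ := e₁.symm G with hG'
  have hGe : G = e₁ G' := by rw [hG', AlgEquiv.apply_symm_apply]
  have hG'0 : MvPowerSeries.constantCoeff G' = 0 := by
    rw [hG', constantCoeff_equiv, hG0]
  have hGr : Gr G' ≠ 0 := by
    intro h
    apply hG
    rw [hGe]
    exact Gr_equiv e₁ h
  by_cases h0 : MvPowerSeries.constantCoeff (MvPowerSeries.pderiv ℂ 0 G') ≠ 0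
  · -- transversal branches
    obtain ⟨e₂, he₂⟩ := Spl.exists_equiv'
      (a := (![G', MvPowerSeries.X 1] : Fin 2 → MvPowerSeries (Fin 2) ℂ))
      (by
        intro i
        fin_cases i
        · exact hG'0
        · exact MvPowerSeries.constantCoeff_X 1)
      (by
        intro v hv
        have h3 := hv 0
        have h4 := hv 1
        rw [Fin.sum_univ_two] at h3 h4
        have e1 : MvPowerSeries.constantCoeff (MvPowerSeries.pderiv ℂ 0
            (![G', MvPowerSeries.X 1] 1 : MvPowerSeries (Fin 2) ℂ)) = 0 := by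
          show MvPowerSeries.constantCoeff (MvPowerSeries.pderiv ℂ 0
            (MvPowerSeries.X 1 : MvPowerSeries (Fin 2) ℂ)) = 0
          rw [Spl.pderiv_X, if_neg (by decide), map_zero]
        have e2 : MvPowerSeries.constantCoeff (MvPowerSeries.pderiv ℂ 1
            (![G', MvPowerSeries.X 1] 1 : MvPowerSeries (Fin 2) ℂ)) = 1 := by
          show MvPowerSeries.constantCoeff (MvPowerSeries.pderiv ℂ 1
            (MvPowerSeries.X 1 : MvPowerSeries (Fin 2) ℂ)) = 1
          rw [Spl.pderiv_X, if_pos rfl, map_one]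
        rw [e1, e2, zero_mul, zero_add, one_mul] at h4
        have h5 : MvPowerSeries.constantCoeff (MvPowerSeries.pderiv ℂ 0 G') * v 0 +
            MvPowerSeries.constantCoeff (MvPowerSeries.pderiv ℂ 1 G') * v 1 = 0 := h3
        rw [h4, mul_zero, add_zero] at h5
        funext i
        fin_cases i
        · exact (mul_eq_zero.1 h5).resolve_left h0
        · exact h4)
    have h20 : e₂ (MvPowerSeries.X 0) = G' := he₂ 0
    have h21 : e₂ (MvPowerSeries.X 1) = MvPowerSeries.X 1 := he₂ 1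
    refine ⟨e₂.trans e₁, 1, X 1 ^ a * X 0 ^ b, fun _ => 1, a + b, Nat.one_pos, Nat.one_pos,
      by omega, pair_supp (w := fun _ => 1) ?_, ?_⟩
    · have h1 := ((isWeightedHomogeneous_X ℂ (fun _ : Fin 2 => 1) 1).pow a).mul
        ((isWeightedHomogeneous_X ℂ (fun _ : Fin 2 => 1) 0).pow b)
      simpa using h1
    · rw [Units.val_one, one_mul, AlgEquiv.trans_apply, coe_mul, coe_pow, coe_pow, coe_X, coe_X,
        map_mul, map_pow, map_pow, h20, h21, map_mul, map_pow, map_pow, he₁, ← hGe]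
  · rw [not_not] at h0
    have h1 : MvPowerSeries.constantCoeff (MvPowerSeries.pderiv ℂ (Fin.last 1) G') ≠ 0 := by
      intro h1
      apply hGr
      funext i
      fin_cases i
      · exact h0
      · exact h1
    set c : MvPowerSeries (Fin 1) ℂ := K 1 G' with hc
    have hc0 : MvPowerSeries.constantCoeff c = 0 := by
      rw [hc, cc_hom, hG'0]
    obtain ⟨U, hU⟩ : MvPowerSeries.X (Fin.last 1) ∣ G' - R 1 c := by
      apply dvd_of_K
      rw [map_sub, K_R, ← hc, sub_self]
    have hU0 : MvPowerSeries.constantCoeff U ≠ 0 := by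
      have h2 := congrArg (fun f => MvPowerSeries.constantCoeff
        (MvPowerSeries.pderiv ℂ (Fin.last 1) f)) hU
      simp only [map_sub, pderiv_last_R, map_zero, sub_zero, Derivation.leibniz, smul_eq_mul,
        Spl.pderiv_X, if_true, mul_one, map_add, map_mul, MvPowerSeries.constantCoeff_X,
        zero_mul, zero_add] at h2
      rw [← h2]
      exact h1
    have hUu : IsUnit U := by
      rw [MvPowerSeries.isUnit_iff_constantCoeff, isUnit_iff_ne_zero]
      exact hU0
    obtain ⟨V, hV⟩ := hUu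
    have hG2 : G' = R 1 c + MvPowerSeries.X (Fin.last 1) * U := by
      rw [← hU]
      ring
    by_cases hc1 : c = 0
    · rw [hc1, map_zero, zero_add] at hG2
      refine ⟨e₁, Units.map (e₁ : MvPowerSeries (Fin 2) ℂ →* MvPowerSeries (Fin 2) ℂ) (V ^ b),
        X 1 ^ (a + b), fun _ => 1, a + b, Nat.one_pos, Nat.one_pos, by omega,
        pair_supp (w := fun _ => 1) ?_, ?_⟩
      · have h1 := (isWeightedHomogeneous_X ℂ (fun _ : Fin 2 => 1) 1).pow (a + b)
        simpa using h1
      · rw [Units.coe_map, Units.val_pow_eq_pow_val, hV, coe_pow, coe_X, ← he₁, hGe, hG2]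
        show e₁ (MvPowerSeries.X 1) ^ a * e₁ (MvPowerSeries.X (Fin.last 1) * U) ^ b =
          e₁ (U ^ b) * e₁ (MvPowerSeries.X 1 ^ (a + b))
        rw [map_mul, map_pow, map_pow, mul_pow, pow_add]
        have h3 : (MvPowerSeries.X (Fin.last 1) : MvPowerSeries (Fin 2) ℂ) =
          MvPowerSeries.X 1 := rfl
        rw [h3]
        ring
    · obtain ⟨e₃, k, hk, he₃⟩ := D5.exists_pow hc1 hc0
      obtain ⟨E, hE1, hE2⟩ := exists_ext e₃.symm
      obtain ⟨e₂, he₂, he₂'⟩ := exists_aut_last (m := 1)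
        (h := MvPowerSeries.X (Fin.last 1) * U)
        (by rw [map_mul, MvPowerSeries.constantCoeff_X, zero_mul])
        (by
          rw [Derivation.leibniz, Spl.pderiv_X, if_pos rfl, smul_eq_mul, smul_eq_mul, mul_one,
            map_add, map_mul, MvPowerSeries.constantCoeff_X, zero_mul, zero_add]
          exact hU0)
      have hRc : R 1 c = E (MvPowerSeries.X 0 ^ k) := by
        have h3 : (MvPowerSeries.X 0 : MvPowerSeries (Fin 2) ℂ) =
            R 1 (MvPowerSeries.X 0) := by
          rw [R_X]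
          rfl
        rw [h3, ← map_pow, hE1, ← he₃, AlgEquiv.symm_apply_apply]
      have hG3 : G' = e₂ (E (MvPowerSeries.X 0 ^ k + MvPowerSeries.X 1)) := by
        have h3 : (MvPowerSeries.X 1 : MvPowerSeries (Fin 2) ℂ) =
          MvPowerSeries.X (Fin.last 1) := rfl
        rw [map_add, map_add, ← hRc, aut_R he₂', h3, hE2, he₂]
        exact hG2
      have hX : (MvPowerSeries.X 1 : MvPowerSeries (Fin 2) ℂ) =
          ((V⁻¹ : (MvPowerSeries (Fin 2) ℂ)ˣ) : MvPowerSeries (Fin 2) ℂ) *
            e₂ (E (MvPowerSeries.X 1)) := by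
        have h3 : (MvPowerSeries.X 1 : MvPowerSeries (Fin 2) ℂ) =
          MvPowerSeries.X (Fin.last 1) := rfl
        rw [h3, hE2, he₂, ← hV, mul_comm (MvPowerSeries.X (Fin.last 1)), ← mul_assoc,
          Units.inv_mul, one_mul]
      refine ⟨(E.trans e₂).trans e₁,
        Units.map (e₁ : MvPowerSeries (Fin 2) ℂ →* MvPowerSeries (Fin 2) ℂ) (V⁻¹ ^ a),
        X 1 ^ a * (X 0 ^ k + X 1) ^ b, ![1, k], a * k + b * k, Nat.one_pos, hk,
        by positivity, pair_supp ?_, ?_⟩
      · have h4 : (X 1 : MvPolynomial (Fin 2) ℂ).IsWeightedHomogeneous ![1, k] k :=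
          isWeightedHomogeneous_X ℂ ![1, k] 1
        have h5 : (X 0 : MvPolynomial (Fin 2) ℂ).IsWeightedHomogeneous ![1, k] 1 :=
          isWeightedHomogeneous_X ℂ ![1, k] 0
        have h6 : (X 0 ^ k : MvPolynomial (Fin 2) ℂ).IsWeightedHomogeneous ![1, k] k := by
          have := h5.pow k
          rwa [smul_eq_mul, mul_one] at this
        have h7 := (h4.pow a).mul ((h6.add h4).pow b)
        rwa [smul_eq_mul, smul_eq_mul] at h7
      · rw [Units.coe_map, Units.val_pow_eq_pow_val, AlgEquiv.trans_apply, AlgEquiv.trans_apply,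
          coe_mul, coe_pow, coe_pow, coe_add, coe_pow, coe_X, coe_X]
        show _ = e₁ _ * _
        rw [← he₁, hGe, ← map_pow e₁, ← map_pow e₁, ← map_mul e₁, ← map_mul e₁]
        congr 1
        have h8 : (MvPowerSeries.X 1 : MvPowerSeries (Fin 2) ℂ) ^ a =
            ((V⁻¹ : (MvPowerSeries (Fin 2) ℂ)ˣ) : MvPowerSeries (Fin 2) ℂ) ^ a *
              e₂ (E (MvPowerSeries.X 1 ^ a)) := by
          conv_lhs => rw [hX]
          rw [mul_pow, map_pow E, map_pow e₂]
        have h9 : ∀ t : MvPowerSeries (Fin 2) ℂ, MvPowerSeries.X 1 ^ a * t =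
            ((V⁻¹ : (MvPowerSeries (Fin 2) ℂ)ˣ) : MvPowerSeries (Fin 2) ℂ) ^ a *
              e₂ (E (MvPowerSeries.X 1 ^ a)) * t := fun t => by rw [← h8]
        rw [h9, hG3, map_mul E, map_mul e₂, map_pow E (MvPowerSeries.X 0 ^ k + _), map_pow e₂,
          mul_assoc]

end MPb07157.F5
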