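import Mathlib

/-!
# Four squarefree polynomials
-/

set_option linter.unusedSimpArgs false

noncomputable section

namespace MPb07157.F5

open MvPolynomial

private theorem sq4_aux {H : MvPolynomial (Fin 2) ℂ} (hH : H ≠ 0)
    (h : ∀ p : MvPolynomial (Fin 2) ℂ, Prime p → p ∣ H → p ∣ pderiv 0 H → p ∣ pderiv 1 H →
      p ∣ X 0 ∧ p ∣ X 1) : Squarefree H := by
  rw [squarefree_iff_irreducible_sq_not_dvd_of_ne_zero hH]
  rintro p hp ⟨g, hg⟩
  have hpp : Prime p := hp.prime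
  have hd : ∀ i, p ∣ pderiv i H := by
    intro i
    have h1 : pderiv i H = p * (pderiv i (p * g)) + p * g * pderiv i p := by
      rw [hg, mul_assoc, Derivation.leibniz, smul_eq_mul, smul_eq_mul]
    rw [h1]
    exact dvd_add (Dvd.intro _ rfl) ⟨g * pderiv i p, by ring⟩
  have h0 : p ∣ H := ⟨p * g, by rw [hg]; ring⟩
  obtain ⟨h1, h2⟩ := h p hpp h0 (hd 0) (hd 1)
  have h3 : Associated p (X 0) := by
    rcases h1 with ⟨q, hq⟩
    have h4 : Irreducible (X 0 : MvPolynomial (Fin 2) ℂ) := X_prime.irreducible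
    rcases h4.isUnit_or_isUnit hq with h5 | h5
    · exact absurd h5 hp.not_isUnit
    · rw [hq]
      exact (associated_mul_unit_right p q h5)
  have h4 : (X 0 : MvPolynomial (Fin 2) ℂ) ∣ X 1 := h3.symm.dvd.trans h2
  have h5 : (0 : Fin 2) = 1 := X_dvd_X.1 h4
  exact absurd h5 (by decide)

private theorem sq4_c2 : (C (2 : ℂ) : MvPolynomial (Fin 2) ℂ) = 2 := map_ofNat C 2

private theorem sq4_c3 : (C (3 : ℂ) : MvPolynomial (Fin 2) ℂ) = 3 := map_ofNat C 3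

private theorem sq4_c4 : (C (4 : ℂ) : MvPolynomial (Fin 2) ℂ) = 4 := map_ofNat C 4

private theorem sq4_C {p : MvPolynomial (Fin 2) ℂ} {b : ℂ} (hb : b ≠ 0)
    (f : MvPolynomial (Fin 2) ℂ) (h : p ∣ C b * f) : p ∣ f := by
  have h1 : f = C b⁻¹ * (C b * f) := by
    rw [← mul_assoc, ← C_mul, inv_mul_cancel₀ hb, C_1, one_mul]
  rw [h1]
  exact Dvd.dvd.mul_left h _

private theorem sq4_pow {p f : MvPolynomial (Fin 2) ℂ} (hp : Prime p) {b : ℂ} (hb : b ≠ 0)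
    (n : ℕ) (h : p ∣ C b * f ^ n) : p ∣ f :=
  hp.dvd_of_dvd_pow (sq4_C hb _ h)

theorem sqf_d5 {a c : ℂ} (ha : a ≠ 0) (hc : c ≠ 0) :
    Squarefree (C a * X 0 ^ 2 * X 1 + C c * X 1 ^ 4 : MvPolynomial (Fin 2) ℂ) := by
  refine sq4_aux ?_ ?_
  · intro h
    have h1 := congrArg (eval ![0, 1]) h
    simp at h1
    exact hc h1
  · intro p hp _ h0 h1
    have e0 : pderiv 0 (C a * X 0 ^ 2 * X 1 + C c * X 1 ^ 4 : MvPolynomial (Fin 2) ℂ)
        = C (2 * a) * (X 0 * X 1) := by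
      simp [Derivation.leibniz, Derivation.leibniz_pow, C_mul, sq4_c2, sq4_c3, sq4_c4]
      ring
    have e1 : pderiv 1 (C a * X 0 ^ 2 * X 1 + C c * X 1 ^ 4 : MvPolynomial (Fin 2) ℂ)
        = C a * X 0 ^ 2 + C (4 * c) * X 1 ^ 3 := by
      simp [Derivation.leibniz, Derivation.leibniz_pow, C_mul, sq4_c2, sq4_c3, sq4_c4]
      ring
    rw [e0] at h0
    rw [e1] at h1
    have ha2 : (2 : ℂ) * a ≠ 0 := mul_ne_zero two_ne_zero ha
    have hc4 : (4 : ℂ) * c ≠ 0 := mul_ne_zero (by norm_num) hc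
    rcases hp.dvd_or_dvd (sq4_C ha2 _ h0) with h2 | h2
    · refine ⟨h2, sq4_pow hp hc4 3 ?_⟩
      exact (dvd_add_right (Dvd.dvd.mul_left (dvd_pow h2 (by norm_num)) _)).1 h1
    · refine ⟨sq4_pow hp ha 2 ?_, h2⟩
      exact (dvd_add_left (Dvd.dvd.mul_left (dvd_pow h2 (by norm_num)) _)).1 h1

theorem sqf_d6 {a c : ℂ} (ha : a ≠ 0) (hc : c ≠ 0) :
    Squarefree (C a * X 0 ^ 2 * X 1 + C c * X 0 * X 1 ^ 3 : MvPolynomial (Fin 2) ℂ) := by
  refine sq4_aux ?_ ?_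
  · intro h
    have h1 := congrArg (eval ![1, 1]) h
    have h2 := congrArg (eval ![1, 2]) h
    simp at h1 h2
    apply hc
    linear_combination (1 / 6) * h2 - (1 / 3) * h1
  · intro p hp h h0 h1
    have e0 : pderiv 0 (C a * X 0 ^ 2 * X 1 + C c * X 0 * X 1 ^ 3 : MvPolynomial (Fin 2) ℂ)
        = C (2 * a) * (X 0 * X 1) + C c * X 1 ^ 3 := by
      simp [Derivation.leibniz, Derivation.leibniz_pow, C_mul, sq4_c2, sq4_c3, sq4_c4]
      ring
    have e1 : pderiv 1 (C a * X 0 ^ 2 * X 1 + C c * X 0 * X 1 ^ 3 : MvPolynomial (Fin 2) ℂ)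
        = C a * X 0 ^ 2 + C (3 * c) * (X 0 * X 1 ^ 2) := by
      simp [Derivation.leibniz, Derivation.leibniz_pow, C_mul, sq4_c2, sq4_c3, sq4_c4]
      ring
    rw [e0] at h0
    rw [e1] at h1
    have h3 : p ∣ C a * (X 0 ^ 2 * X 1) := by
      have h4 := dvd_sub (Dvd.dvd.mul_left h0 (X 0)) h
      have h5 : X 0 * (C (2 * a) * (X 0 * X 1) + C c * X 1 ^ 3) -
          (C a * X 0 ^ 2 * X 1 + C c * X 0 * X 1 ^ 3) =
          (C a * (X 0 ^ 2 * X 1) : MvPolynomial (Fin 2) ℂ) := by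
        rw [C_mul, sq4_c2]
        ring
      rwa [h5] at h4
    rcases hp.dvd_or_dvd (sq4_C ha _ h3) with h2 | h2
    · have h2' : p ∣ X 0 := hp.dvd_of_dvd_pow h2
      refine ⟨h2', sq4_pow hp hc 3 ?_⟩
      exact (dvd_add_right (Dvd.dvd.mul_left (Dvd.dvd.mul_right h2' _) _)).1 h0
    · refine ⟨sq4_pow hp ha 2 ?_, h2⟩
      exact (dvd_add_left (Dvd.dvd.mul_left (Dvd.dvd.mul_left (dvd_pow h2 (by norm_num)) _) _)).1 h1

theorem sqf_e6 {a c : ℂ} (ha : a ≠ 0) (hc : c ≠ 0) :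
    Squarefree (C a * X 0 ^ 3 + C c * X 1 ^ 4 : MvPolynomial (Fin 2) ℂ) := by
  refine sq4_aux ?_ ?_
  · intro h
    have h1 := congrArg (eval ![0, 1]) h
    simp at h1
    exact hc h1
  · intro p hp _ h0 h1
    have e0 : pderiv 0 (C a * X 0 ^ 3 + C c * X 1 ^ 4 : MvPolynomial (Fin 2) ℂ)
        = C (3 * a) * X 0 ^ 2 := by
      simp [Derivation.leibniz, Derivation.leibniz_pow, C_mul, sq4_c2, sq4_c3, sq4_c4]
      ring
    have e1 : pderiv 1 (C a * X 0 ^ 3 + C c * X 1 ^ 4 : MvPolynomial (Fin 2) ℂ)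
        = C (4 * c) * X 1 ^ 3 := by
      simp [Derivation.leibniz, Derivation.leibniz_pow, C_mul, sq4_c2, sq4_c3, sq4_c4]
      ring
    rw [e0] at h0
    rw [e1] at h1
    exact ⟨sq4_pow hp (mul_ne_zero three_ne_zero ha) 2 h0,
      sq4_pow hp (mul_ne_zero (by norm_num) hc) 3 h1⟩

theorem sqf_e7 {a c : ℂ} (ha : a ≠ 0) (hc : c ≠ 0) :
    Squarefree (C a * X 0 ^ 3 + C c * X 0 * X 1 ^ 3 : MvPolynomial (Fin 2) ℂ) := by
  refine sq4_aux ?_ ?_
  · intro h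
    have h1 := congrArg (eval ![1, 0]) h
    simp at h1
    exact ha h1
  · intro p hp _ h0 h1
    have e0 : pderiv 0 (C a * X 0 ^ 3 + C c * X 0 * X 1 ^ 3 : MvPolynomial (Fin 2) ℂ)
        = C (3 * a) * X 0 ^ 2 + C c * X 1 ^ 3 := by
      simp [Derivation.leibniz, Derivation.leibniz_pow, C_mul, sq4_c2, sq4_c3, sq4_c4]
      ring
    have e1 : pderiv 1 (C a * X 0 ^ 3 + C c * X 0 * X 1 ^ 3 : MvPolynomial (Fin 2) ℂ)
        = C (3 * c) * (X 0 * X 1 ^ 2) := by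
      simp [Derivation.leibniz, Derivation.leibniz_pow, C_mul, sq4_c2, sq4_c3, sq4_c4]
      ring
    rw [e0] at h0
    rw [e1] at h1
    rcases hp.dvd_or_dvd (sq4_C (mul_ne_zero three_ne_zero hc) _ h1) with h2 | h2
    · refine ⟨h2, sq4_pow hp hc 3 ?_⟩
      exact (dvd_add_right (Dvd.dvd.mul_left (dvd_pow h2 (by norm_num)) _)).1 h0
    · have h2' : p ∣ X 1 := hp.dvd_of_dvd_pow h2
      refine ⟨sq4_pow hp (mul_ne_zero three_ne_zero ha) 2 ?_, h2'⟩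
      exact (dvd_add_left (Dvd.dvd.mul_left (dvd_pow h2' (by norm_num)) _)).1 h0

end MPb07157.F5
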