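import Pool.Agent.Lib.MP_b07157_agO3.SDefs
import Pool.Agent.Lib.MP_b07157_agF5.Sq4

/-!
# Weights
-/

noncomputable section

namespace MPb07157.F5

open MvPolynomial

/-- The coefficients of the part of weight `K`. -/
theorem coeff_wpart (a b K : ℕ) (G : MvPolynomial (Fin 2) ℂ) (m : Fin 2 →₀ ℕ) :
    coeff m (WPart a b K G) = if a * m 0 + b * m 1 = K then coeff m G else 0 := by
  classical
  unfold WPart
  rw [coeff_sum]
  simp only [coeff_monomial]
  rw [Finset.sum_ite_eq' (G.support.filter (fun m => a * m 0 + b * m 1 = K)) m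
    (fun m => coeff m G)]
  by_cases h : a * m 0 + b * m 1 = K
  · by_cases h0 : coeff m G = 0
    · rw [if_pos h, h0]
      split_ifs <;> rfl
    · rw [if_pos h, if_pos]
      rw [Finset.mem_filter, mem_support_iff]
      exact ⟨h0, h⟩
  · rw [if_neg h, if_neg]
    rw [Finset.mem_filter]
    exact fun h' => h h'.2

theorem wge_mul {a b N : ℕ} (G : MvPolynomial (Fin 2) ℂ) {H : MvPolynomial (Fin 2) ℂ}
    (hH : WGe a b N H) : WGe a b N (G * H) := by
  classical
  intro m hm
  rw [coeff_mul] at hm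
  obtain ⟨x, hx, hx0⟩ := Finset.exists_ne_zero_of_sum_ne_zero hm
  rw [Finset.HasAntidiagonal.mem_antidiagonal] at hx
  have h1 : coeff x.2 H ≠ 0 := fun h => hx0 (by rw [h, mul_zero])
  have h2 := hH x.2 h1
  have h3 : m 0 = x.1 0 + x.2 0 := by rw [← hx]; rfl
  have h4 : m 1 = x.1 1 + x.2 1 := by rw [← hx]; rfl
  rw [h3, h4, Nat.mul_add, Nat.mul_add]
  omega

theorem wpart_mul {a b N : ℕ} (ha : 0 < a) (hb : 0 < b) (G : MvPolynomial (Fin 2) ℂ)
    {H : MvPolynomial (Fin 2) ℂ} (hH : WGe a b N H) :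
    WPart a b N (G * H) = C (coeff 0 G) * WPart a b N H := by
  classical
  ext m
  rw [coeff_C_mul, coeff_wpart, coeff_wpart]
  by_cases h : a * m 0 + b * m 1 = N
  · rw [if_pos h, if_pos h, coeff_mul]
    have hmem : ((0 : Fin 2 →₀ ℕ), m) ∈ Finset.HasAntidiagonal.antidiagonal m := by
      rw [Finset.HasAntidiagonal.mem_antidiagonal]; exact zero_add m
    rw [Finset.sum_eq_single_of_mem _ hmem]
    intro x hx hne
    rw [Finset.HasAntidiagonal.mem_antidiagonal] at hx
    by_contra h0
    have h1 : coeff x.2 H ≠ 0 := fun h' => h0 (by rw [h', mul_zero])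
    have h2 := hH x.2 h1
    have h3 : m 0 = x.1 0 + x.2 0 := by rw [← hx]; rfl
    have h4 : m 1 = x.1 1 + x.2 1 := by rw [← hx]; rfl
    rw [h3, h4, Nat.mul_add, Nat.mul_add] at h
    have h5 : a * x.1 0 = 0 := by omega
    have h6 : b * x.1 1 = 0 := by omega
    have h7 : x.1 0 = 0 := by
      rcases Nat.mul_eq_zero.1 h5 with h' | h'
      · omega
      · exact h'
    have h8 : x.1 1 = 0 := by
      rcases Nat.mul_eq_zero.1 h6 with h' | h'
      · omega
      · exact h'
    have h9 : x.1 = 0 := by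
      ext i
      fin_cases i
      · exact h7
      · exact h8
    apply hne
    have h10 : x.2 = m := by rw [← hx, h9, zero_add]
    exact Prod.ext h9 h10
  · rw [if_neg h, if_neg h, mul_zero]

end MPb07157.F5
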