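import Pool.Agent.Lib.MP_b07157_agF5.Wt

/-!
# The singularities `D5`, `D6`, `E6`, `E7`
-/

noncomputable section

namespace MPb07157.F5

open MvPolynomial

/-- The coefficients of the part of weight `N`. -/
theorem coeff_wpart_eq (a b N : ℕ) (F : MvPolynomial (Fin 2) ℂ) (m : Fin 2 →₀ ℕ) :
    coeff m (WPart a b N F) = if a * m 0 + b * m 1 = N then coeff m F else 0 := by
  classical
  unfold WPart
  rw [coeff_sum]
  simp only [coeff_monomial]
  rw [Finset.sum_ite_eq' (F.support.filter fun m => a * m 0 + b * m 1 = N) m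
    (fun m => coeff m F)]
  simp only [Finset.mem_filter, mem_support_iff]
  by_cases h1 : a * m 0 + b * m 1 = N
  · by_cases h2 : coeff m F = 0
    · simp [h1, h2]
    · simp [h1, h2]
  · simp [h1]

/-- The exponent of `y ^ i z ^ j`. -/
def wtEx (i j : ℕ) : Fin 2 →₀ ℕ := Finsupp.single 0 i + Finsupp.single 1 j

theorem wtEx_zero (i j : ℕ) : wtEx i j 0 = i := by
  simp [wtEx]

theorem wtEx_one (i j : ℕ) : wtEx i j 1 = j := by
  simp [wtEx]

theorem eq_wtEx_iff (m : Fin 2 →₀ ℕ) (i j : ℕ) : wtEx i j = m ↔ i = m 0 ∧ j = m 1 := by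
  constructor
  · rintro rfl
    exact ⟨(wtEx_zero i j).symm, (wtEx_one i j).symm⟩
  · rintro ⟨h0, h1⟩
    ext t
    fin_cases t
    · simp [wtEx_zero, h0]
    · simp [wtEx_one, h1]

theorem wt_mono_eq (c : ℂ) (i j : ℕ) :
    (C c * X 0 ^ i * X 1 ^ j : MvPolynomial (Fin 2) ℂ) = monomial (wtEx i j) c := by
  rw [wtEx, monomial_eq, Finsupp.prod_add_index']
  · simp [Finsupp.prod_single_index, mul_assoc]
  · intro t
    simp
  · intro t p q
    rw [pow_add]

/-- Two monomials make up the part of weight `N`. -/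
theorem wpart_two {a b N : ℕ} {H : MvPolynomial (Fin 2) ℂ} (i j i' j' : ℕ)
    (hne : ¬ (i = i' ∧ j = j'))
    (h1 : a * i + b * j = N) (h2 : a * i' + b * j' = N)
    (h : ∀ m : Fin 2 →₀ ℕ, coeff m H ≠ 0 → a * m 0 + b * m 1 = N →
      (i = m 0 ∧ j = m 1) ∨ (i' = m 0 ∧ j' = m 1)) :
    WPart a b N H = C (coeff (wtEx i j) H) * X 0 ^ i * X 1 ^ j +
      C (coeff (wtEx i' j') H) * X 0 ^ i' * X 1 ^ j' := by
  classical
  rw [wt_mono_eq, wt_mono_eq]
  ext m
  rw [coeff_wpart_eq, coeff_add, coeff_monomial, coeff_monomial]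
  by_cases e1 : wtEx i j = m
  · have e2 : ¬ wtEx i' j' = m := by
      intro e2
      rw [eq_wtEx_iff] at e1 e2
      exact hne ⟨by omega, by omega⟩
    rw [if_pos e1, if_neg e2, add_zero, ← e1, wtEx_zero, wtEx_one, if_pos h1]
  · by_cases e2 : wtEx i' j' = m
    · rw [if_neg e1, if_pos e2, zero_add, ← e2, wtEx_zero, wtEx_one, if_pos h2]
    · rw [if_neg e1, if_neg e2, add_zero]
      by_cases h3 : a * m 0 + b * m 1 = N
      · rw [if_pos h3]
        by_contra h4
        rcases h m h4 h3 with h5 | h5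
        · exact e1 ((eq_wtEx_iff m i j).2 h5)
        · exact e2 ((eq_wtEx_iff m i' j').2 h5)
      · rw [if_neg h3]

/-- A polynomial all of whose terms have degree at least two in `y` is divisible by `y ^ 2`. -/
theorem wt_sq_dvd {H : MvPolynomial (Fin 2) ℂ} (h : ∀ m, coeff m H ≠ 0 → 2 ≤ m 0) :
    X 0 ^ 2 ∣ H := by
  rw [H.as_sum]
  refine Finset.dvd_sum fun m hm => ?_
  have h2 : 2 ≤ m 0 := h m (mem_support_iff.1 hm)
  have h3 : (monomial m (coeff m H) : MvPolynomial (Fin 2) ℂ) =
      X 0 ^ 2 * monomial (m - Finsupp.single 0 2) (coeff m H) := by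
    rw [X_pow_eq_monomial, monomial_mul, one_mul]
    have h4 : Finsupp.single 0 2 + (m - Finsupp.single 0 2) = m := by
      ext t
      fin_cases t
      · simp
        omega
      · simp
    rw [h4]
  rw [h3]
  exact Dvd.intro _ rfl

/-- Suitable weights for a polynomial with terms of degrees 3 and 4 whose cubic part is divisible
by `y ^ 2`, while the polynomial is not divisible by `y ^ 2`. -/
theorem exists_weights {H : MvPolynomial (Fin 2) ℂ}
    (h34 : ∀ m, coeff m H ≠ 0 → 3 ≤ m 0 + m 1 ∧ m 0 + m 1 ≤ 4)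
    (h3 : ∃ m : Fin 2 →₀ ℕ, m 0 + m 1 = 3 ∧ coeff m H ≠ 0)
    (hz : ∀ m : Fin 2 →₀ ℕ, m 0 + m 1 = 3 → m 0 ≤ 1 → coeff m H = 0)
    (hy : ¬ X 0 ^ 2 ∣ H) :
    ∃ a b N : ℕ, 0 < a ∧ 0 < b ∧ a + b ≤ N ∧ N ≤ 2 * (a + b) ∧ WGe a b N H ∧
      Squarefree (WPart a b N H) := by
  -- the shape of the exponents
  have key : ∀ m, coeff m H ≠ 0 →
      (m 0 + m 1 = 3 ∧ 2 ≤ m 0) ∨ m 0 + m 1 = 4 := by
    intro m hm
    have h1 := h34 m hm
    by_cases h2 : m 0 + m 1 = 3
    · left
      refine ⟨h2, ?_⟩
      by_contra h4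
      exact hm (hz m h2 (by omega))
    · right
      omega
  have z21 : coeff (wtEx 2 1) H = 0 → ∀ m, coeff m H ≠ 0 → ¬ (m 0 = 2 ∧ m 1 = 1) := by
    intro h m hm hc
    apply hm
    rw [← (eq_wtEx_iff m 2 1).2 ⟨hc.1.symm, hc.2.symm⟩]
    exact h
  have z04 : coeff (wtEx 0 4) H = 0 → ∀ m, coeff m H ≠ 0 → ¬ (m 0 = 0 ∧ m 1 = 4) := by
    intro h m hm hc
    apply hm
    rw [← (eq_wtEx_iff m 0 4).2 ⟨hc.1.symm, hc.2.symm⟩]
    exact h
  have z13 : coeff (wtEx 1 3) H = 0 → ∀ m, coeff m H ≠ 0 → ¬ (m 0 = 1 ∧ m 1 = 3) := by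
    intro h m hm hc
    apply hm
    rw [← (eq_wtEx_iff m 1 3).2 ⟨hc.1.symm, hc.2.symm⟩]
    exact h
  by_cases c21 : coeff (wtEx 2 1) H = 0
  · have c30 : coeff (wtEx 3 0) H ≠ 0 := by
      obtain ⟨m, hm3, hm⟩ := h3
      have h1 := key m hm
      have h2 := z21 c21 m hm
      have h4 : wtEx 3 0 = m := (eq_wtEx_iff m 3 0).2 ⟨by omega, by omega⟩
      rw [h4]
      exact hm
    by_cases c04 : coeff (wtEx 0 4) H = 0
    · by_cases c13 : coeff (wtEx 1 3) H = 0
      · exfalso
        apply hy
        apply wt_sq_dvd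
        intro m hm
        have h1 := key m hm
        have h2 := z04 c04 m hm
        have h4 := z13 c13 m hm
        omega
      · refine ⟨3, 2, 9, by norm_num, by norm_num, by norm_num, by norm_num, ?_, ?_⟩
        · intro m hm
          have h1 := key m hm
          have h2 := z21 c21 m hm
          have h4 := z04 c04 m hm
          omega
        · rw [wpart_two 3 0 1 3 (by omega) (by norm_num) (by norm_num)]
          · have := sqf_e7 c30 c13
            simpa using this
          · intro m hm hw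
            have h1 := key m hm
            have h2 := z21 c21 m hm
            have h4 := z04 c04 m hm
            omega
    · refine ⟨4, 3, 12, by norm_num, by norm_num, by norm_num, by norm_num, ?_, ?_⟩
      · intro m hm
        have h1 := key m hm
        have h2 := z21 c21 m hm
        omega
      · rw [wpart_two 3 0 0 4 (by omega) (by norm_num) (by norm_num)]
        · have := sqf_e6 c30 c04
          simpa using this
        · intro m hm hw
          have h1 := key m hm
          have h2 := z21 c21 m hm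
          omega
  · by_cases c04 : coeff (wtEx 0 4) H = 0
    · by_cases c13 : coeff (wtEx 1 3) H = 0
      · exfalso
        apply hy
        apply wt_sq_dvd
        intro m hm
        have h1 := key m hm
        have h2 := z04 c04 m hm
        have h4 := z13 c13 m hm
        omega
      · refine ⟨2, 1, 5, by norm_num, by norm_num, by norm_num, by norm_num, ?_, ?_⟩
        · intro m hm
          have h1 := key m hm
          have h4 := z04 c04 m hm
          omega
        · rw [wpart_two 2 1 1 3 (by omega) (by norm_num) (by norm_num)]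
          · have := sqf_d6 c21 c13
            simpa using this
          · intro m hm hw
            have h1 := key m hm
            have h4 := z04 c04 m hm
            omega
    · refine ⟨3, 2, 8, by norm_num, by norm_num, by norm_num, by norm_num, ?_, ?_⟩
      · intro m hm
        have h1 := key m hm
        omega
      · rw [wpart_two 2 1 0 4 (by omega) (by norm_num) (by norm_num)]
        · have := sqf_d5 c21 c04
          simpa using this
        · intro m hm hw
          have h1 := key m hm
          omega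

end MPb07157.F5
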